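import Pool.Agent.U689.UB.RF

/-!
# Base change to the algebraic closure, and the count
-/

set_option autoImplicit false

namespace Pool.Agent.U689.UB

open Polynomial

theorem Pre.map {S T : Type*} {f : S → S} {g : T → T} (ψ : S → T) (h : ∀ z, ψ (f z) = g (ψ z))
    {x : S} (hx : Pre f x) : Pre g (ψ x) := by
  have h1 : ∀ j : ℕ, g^[j] (ψ x) = ψ (f^[j] x) := by
    intro j
    induction j with
    | zero => rfl
    | succ j ih => rw [Function.iterate_succ_apply', Function.iterate_succ_apply', ih, h]
  refine Set.Finite.subset (Set.Finite.image ψ hx) ?_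
  rintro _ ⟨j, rfl⟩
  exact ⟨_, ⟨j, rfl⟩, (h1 j).symm⟩

variable {k : Type*} [Field k]

/-- the main theorem over an arbitrary field -/
theorem main_gen (p : ℕ) [hpp : Fact p.Prime] [CharP k p] (e : ℕ) (he : 1 ≤ e) (R : k[X])
    (hR : 3 ≤ R.natDegree) (hpR : ¬ p ∣ R.natDegree) (c : RatFunc k)
    (hc : ∀ a : k, c ≠ algebraMap k (RatFunc k) a) {x y : RatFunc k}
    (hx : Pre (fun z : RatFunc k => aeval z (expand k (p ^ e) R) + c) x)
    (hy : Pre (fun z : RatFunc k => aeval z (expand k (p ^ e) R) + c) y) :
    aeval x (expand k (p ^ e) R) + c = aeval y (expand k (p ^ e) R) + c := by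
  let L := AlgebraicClosure k
  let j : k →+* L := algebraMap k L
  have hj : Function.Injective j := RingHom.injective j
  have hLp : CharP L p := charP_of_injective_algebraMap hj p
  have hjm : Function.Injective (mapRingHom j) := map_injective j hj
  let ψ : RatFunc k →+* RatFunc L := IsFractionRing.map hjm
  have hψ : Function.Injective ψ := RingHom.injective ψ
  have hψA : ∀ A : k[X], ψ (algebraMap k[X] (RatFunc k) A) =
      algebraMap L[X] (RatFunc L) (A.map j) := by
    intro A
    exact IsLocalization.map_eq _ A
  have hψk : ∀ a : k, ψ (algebraMap k (RatFunc k) a) = algebraMap L (RatFunc L) (j a) := by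
    intro a
    have h1 : algebraMap k (RatFunc k) a = algebraMap k[X] (RatFunc k) (C a) := by
      rw [IsScalarTower.algebraMap_apply k k[X] (RatFunc k)]
      rfl
    have h2 : algebraMap L (RatFunc L) (j a) = algebraMap L[X] (RatFunc L) (C (j a)) := by
      rw [IsScalarTower.algebraMap_apply L L[X] (RatFunc L)]
      rfl
    rw [h1, h2, hψA, map_C]
  let P : L[X] := (R.map j).map (iterateFrobeniusEquiv L p e).symm.toRingHom
  have hPR : P.map (iterateFrobenius L p e) = R.map j := by
    show ((R.map j).map (iterateFrobeniusEquiv L p e).symm.toRingHom).map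
      (iterateFrobenius L p e) = R.map j
    rw [Polynomial.map_map]
    have h1 : (iterateFrobenius L p e).comp (iterateFrobeniusEquiv L p e).symm.toRingHom =
        RingHom.id L := by
      ext a
      exact (iterateFrobeniusEquiv L p e).apply_symm_apply a
    rw [h1, Polynomial.map_id]
  have hPq : P ^ p ^ e = (expand k (p ^ e) R).map j := by
    rw [← map_iterateFrobenius_expand, map_expand, hPR, map_expand]
  have hPd : P.natDegree = R.natDegree := by
    show ((R.map j).map _).natDegree = _
    rw [natDegree_map_eq_of_injective (RingEquiv.injective _), natDegree_map_eq_of_injective hj]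
  have hval : ∀ z : RatFunc k, ψ (aeval z (expand k (p ^ e) R)) = aeval (ψ z) P ^ p ^ e := by
    intro z
    rw [← map_pow, hPq, aeval_def, aeval_def, hom_eval₂, eval₂_map]
    congr 1
    ext a
    exact hψk a
  have key := main_rat p P (by rw [hPd]; exact hR) (by
      rw [hPd, Ne, CharP.cast_eq_zero_iff L p]
      exact hpR) e he (ψ c) ?_ (x := ψ x) (y := ψ y) ?_ ?_
  · apply hψ
    rw [map_add, map_add, hval, hval]
    exact key
  · intro a ha
    have h1 : algebraMap k[X] (RatFunc k) c.num / algebraMap k[X] (RatFunc k) c.denom = c :=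
      RatFunc.num_div_denom c
    have hden : algebraMap k[X] (RatFunc k) c.denom ≠ 0 := by
      intro h
      exact RatFunc.denom_ne_zero c (RatFunc.algebraMap_injective k (by rw [h, map_zero]))
    have h8 : algebraMap k[X] (RatFunc k) c.num = c * algebraMap k[X] (RatFunc k) c.denom :=
      (div_eq_iff hden).1 h1
    have h2 : c.num.map j = C a * c.denom.map j := by
      apply RatFunc.algebraMap_injective L
      have h3 := congrArg ψ h8
      rw [map_mul, ha, hψA, hψA] at h3
      rw [map_mul, h3]
      congr 1
    have h4 : j (c.num.coeff c.denom.natDegree) = a := by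
      have h5 := congrArg (fun f => f.coeff c.denom.natDegree) h2
      simp only [coeff_map, coeff_C_mul] at h5
      have h6 : c.denom.coeff c.denom.natDegree = 1 := RatFunc.monic_denom c
      rw [h6, map_one, mul_one] at h5
      exact h5
    have h7 : c.num = C (c.num.coeff c.denom.natDegree) * c.denom := by
      apply hjm
      show c.num.map j = (C (c.num.coeff c.denom.natDegree) * c.denom).map j
      rw [Polynomial.map_mul, map_C, h4, h2]
    refine hc (c.num.coeff c.denom.natDegree) (mul_right_cancel₀ hden ?_)
    rw [← h8, IsScalarTower.algebraMap_apply k k[X] (RatFunc k)]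
    nth_rewrite 1 [h7]
    rw [map_mul]
    rfl
  · exact hx.map ψ fun z => by rw [map_add, hval]
  · exact hy.map ψ fun z => by rw [map_add, hval]

/-- the number of preperiodic points -/
theorem count (p : ℕ) [hpp : Fact p.Prime] [CharP k p] (e : ℕ) (he : 1 ≤ e) (R : k[X])
    (hR : 3 ≤ R.natDegree) (hpR : ¬ p ∣ R.natDegree) (c : RatFunc k)
    (hc : ∀ a : k, c ≠ algebraMap k (RatFunc k) a) :
    {x : RatFunc k | Pre (fun z : RatFunc k => aeval z (expand k (p ^ e) R) + c) x}.encard ≤
      R.natDegree := by
  classical
  set f : RatFunc k → RatFunc k := fun z => aeval z (expand k (p ^ e) R) + c with hf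
  by_cases hne : ∃ x₀, Pre f x₀
  · obtain ⟨x₀, hx₀⟩ := hne
    have hinj : Function.Injective (algebraMap k (RatFunc k)) := RingHom.injective _
    have hK : CharP (RatFunc k) p := charP_of_injective_algebraMap hinj p
    let w : RatFunc k := aeval x₀ (expand k (p ^ e) R)
    let T : (RatFunc k)[X] := R.map (algebraMap k (RatFunc k)) - C w
    have hTd : T.natDegree = R.natDegree := by
      show (R.map (algebraMap k (RatFunc k)) - C w).natDegree = _
      rw [natDegree_sub_C, natDegree_map_eq_of_injective hinj]
    have hT0 : T ≠ 0 := by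
      intro h
      rw [h, natDegree_zero] at hTd
      omega
    have hmem : ∀ x, Pre f x → x ^ p ^ e ∈ T.roots.toFinset := by
      intro x hx
      rw [Multiset.mem_toFinset, mem_roots hT0, IsRoot.def]
      have h1 := main_gen p e he R hR hpR c hc hx hx₀
      have h2 : aeval x (expand k (p ^ e) R) = w := add_right_cancel h1
      show (R.map (algebraMap k (RatFunc k)) - C w).eval (x ^ p ^ e) = 0
      rw [eval_sub, eval_C, eval_map_algebraMap, ← expand_aeval, h2, sub_self]
    have hcard : (T.roots.toFinset : Set (RatFunc k)).encard ≤ R.natDegree := by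
      rw [Set.encard_coe_eq_coe_finsetCard]
      have h1 : T.roots.toFinset.card ≤ R.natDegree := by
        rw [← hTd]
        exact (Multiset.toFinset_card_le _).trans (card_roots' T)
      exact_mod_cast h1
    refine le_trans ?_ hcard
    refine Set.encard_le_encard_of_injOn (f := fun x => x ^ p ^ e) (fun x hx => hmem x hx) ?_
    intro x _ y _ hxy
    exact iterateFrobenius_inj (RatFunc k) p e hxy
  · have h1 : {x : RatFunc k | Pre f x} = ∅ := by
      ext x
      exact iff_of_false (fun h => hne ⟨x, h⟩) (fun h => h)
    rw [h1, Set.encard_empty]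
    exact bot_le

/-- adding the point at infinity -/
theorem count_option {K : Type*} (f : K → K) {m : ℕ} (h : {x : K | Pre f x}.encard ≤ m) :
    {z : Option K | Pre (Option.map f) z}.encard ≤ ((m + 1 : ℕ) : ℕ∞) := by
  have h1 : {z : Option K | Pre (Option.map f) z} ⊆ insert none (some '' {x : K | Pre f x}) := by
    rintro (_ | x) hx
    · exact Set.mem_insert _ _
    · refine Set.mem_insert_of_mem _ ⟨x, ?_, rfl⟩
      have h2 : ∀ j : ℕ, (Option.map f)^[j] (some x) = some (f^[j] x) := by
        intro j
        induction j with
        | zero => rfl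
        | succ j ih => rw [Function.iterate_succ_apply', Function.iterate_succ_apply', ih]; rfl
      refine Set.Finite.of_finite_image (f := some) ?_ (Option.some_injective K).injOn
      refine Set.Finite.subset hx ?_
      rintro _ ⟨_, ⟨j, rfl⟩, rfl⟩
      exact ⟨j, h2 j⟩
  refine (Set.encard_le_encard h1).trans ((Set.encard_insert_le _ _).trans ?_)
  rw [(Option.some_injective K).encard_image]
  push_cast
  gcongr

end Pool.Agent.U689.UB
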