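import Pool.Agent.U689.UB.RFS
import Pool.Agent.U689.UB.BC

/-!
# Degree two: base change to the algebraic closure, and the count
-/

set_option autoImplicit false

namespace Pool.Agent.U689.UB

open Polynomial

variable {k : Type*} [Field k]

/-- the main theorem over an arbitrary field -/
theorem main_gen2 (p : ℕ) [hpp : Fact p.Prime] [CharP k p] (hp2 : p ≠ 2) (e : ℕ) (he : 1 ≤ e)
    (R : k[X]) (hR : R.natDegree = 2) (c : RatFunc k)
    (hc : ∀ a : k, c ≠ algebraMap k (RatFunc k) a) (x : Fin 5 → RatFunc k)
    (hx : ∀ i, Pre (fun z : RatFunc k => aeval z (expand k (p ^ e) R) + c) (x i)) :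
    ∃ i j, i ≠ j ∧
      aeval (x i) (expand k (p ^ e) R) + c = aeval (x j) (expand k (p ^ e) R) + c := by
  let L := AlgebraicClosure k
  let j : k →+* L := algebraMap k L
  have hj : Function.Injective j := RingHom.injective j
  have hLp : CharP L p := charP_of_injective_algebraMap hj p
  have hjm : Function.Injective (mapRingHom j) := map_injective j hj
  let ψ : RatFunc k →+* RatFunc L := IsFractionRing.map hjm
  have hψ : Function.Injective ψ := RingHom.injective ψ
  have hψA : ∀ A : k[X], ψ (algebraMap k[X] (RatFunc k) A) =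
      algebraMap L[X] (RatFunc L) (A.map j) := by
    intro A
    exact IsLocalization.map_eq _ A
  have hψk : ∀ a : k, ψ (algebraMap k (RatFunc k) a) = algebraMap L (RatFunc L) (j a) := by
    intro a
    have h1 : algebraMap k (RatFunc k) a = algebraMap k[X] (RatFunc k) (C a) := by
      rw [IsScalarTower.algebraMap_apply k k[X] (RatFunc k)]
      rfl
    have h2 : algebraMap L (RatFunc L) (j a) = algebraMap L[X] (RatFunc L) (C (j a)) := by
      rw [IsScalarTower.algebraMap_apply L L[X] (RatFunc L)]
      rfl
    rw [h1, h2, hψA, map_C]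
  let P : L[X] := (R.map j).map (iterateFrobeniusEquiv L p e).symm.toRingHom
  have hPR : P.map (iterateFrobenius L p e) = R.map j := by
    show ((R.map j).map (iterateFrobeniusEquiv L p e).symm.toRingHom).map
      (iterateFrobenius L p e) = R.map j
    rw [Polynomial.map_map]
    have h1 : (iterateFrobenius L p e).comp (iterateFrobeniusEquiv L p e).symm.toRingHom =
        RingHom.id L := by
      ext a
      exact (iterateFrobeniusEquiv L p e).apply_symm_apply a
    rw [h1, Polynomial.map_id]
  have hPq : P ^ p ^ e = (expand k (p ^ e) R).map j := by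
    rw [← map_iterateFrobenius_expand, map_expand, hPR, map_expand]
  have hPd : P.natDegree = R.natDegree := by
    show ((R.map j).map _).natDegree = _
    rw [natDegree_map_eq_of_injective (RingEquiv.injective _), natDegree_map_eq_of_injective hj]
  have hval : ∀ z : RatFunc k, ψ (aeval z (expand k (p ^ e) R)) = aeval (ψ z) P ^ p ^ e := by
    intro z
    rw [← map_pow, hPq, aeval_def, aeval_def, hom_eval₂, eval₂_map]
    congr 1
    ext a
    exact hψk a
  have key := main_rat2 p hp2 P (by rw [hPd]; exact hR) e he (ψ c) ?_ (fun i => ψ (x i)) ?_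
  · obtain ⟨i, j, hij, key⟩ := key
    refine ⟨i, j, hij, hψ ?_⟩
    rw [map_add, map_add, hval, hval]
    exact key
  · intro a ha
    have h1 : algebraMap k[X] (RatFunc k) c.num / algebraMap k[X] (RatFunc k) c.denom = c :=
      RatFunc.num_div_denom c
    have hden : algebraMap k[X] (RatFunc k) c.denom ≠ 0 := by
      intro h
      exact RatFunc.denom_ne_zero c (RatFunc.algebraMap_injective k (by rw [h, map_zero]))
    have h8 : algebraMap k[X] (RatFunc k) c.num = c * algebraMap k[X] (RatFunc k) c.denom :=
      (div_eq_iff hden).1 h1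
    have h2 : c.num.map j = C a * c.denom.map j := by
      apply RatFunc.algebraMap_injective L
      have h3 := congrArg ψ h8
      rw [map_mul, ha, hψA, hψA] at h3
      rw [map_mul, h3]
      congr 1
    have h4 : j (c.num.coeff c.denom.natDegree) = a := by
      have h5 := congrArg (fun f => f.coeff c.denom.natDegree) h2
      simp only [coeff_map, coeff_C_mul] at h5
      have h6 : c.denom.coeff c.denom.natDegree = 1 := RatFunc.monic_denom c
      rw [h6, map_one, mul_one] at h5
      exact h5
    have h7 : c.num = C (c.num.coeff c.denom.natDegree) * c.denom := by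
      apply hjm
      show c.num.map j = (C (c.num.coeff c.denom.natDegree) * c.denom).map j
      rw [Polynomial.map_mul, map_C, h4, h2]
    refine hc (c.num.coeff c.denom.natDegree) (mul_right_cancel₀ hden ?_)
    rw [← h8, IsScalarTower.algebraMap_apply k k[X] (RatFunc k)]
    nth_rewrite 1 [h7]
    rw [map_mul]
    rfl
  · intro i
    exact (hx i).map ψ fun z => by rw [map_add, hval]

/-- the number of values -/
theorem values2 (p : ℕ) [hpp : Fact p.Prime] [CharP k p] (hp2 : p ≠ 2) (e : ℕ) (he : 1 ≤ e)
    (R : k[X]) (hR : R.natDegree = 2) (c : RatFunc k)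
    (hc : ∀ a : k, c ≠ algebraMap k (RatFunc k) a) (V : Finset (RatFunc k))
    (hV : ∀ v ∈ V, ∃ x, Pre (fun z : RatFunc k => aeval z (expand k (p ^ e) R) + c) x ∧
      aeval x (expand k (p ^ e) R) + c = v) : V.card ≤ 4 := by
  by_contra hcon
  push Not at hcon
  obtain ⟨W, hW, hWc⟩ := Finset.exists_subset_card_eq (show 5 ≤ V.card by omega)
  let φ := (Finset.equivFinOfCardEq hWc).symm
  have h1 : ∀ i : Fin 5, ∃ x, Pre (fun z : RatFunc k => aeval z (expand k (p ^ e) R) + c) x ∧
      aeval x (expand k (p ^ e) R) + c = (φ i : RatFunc k) := fun i => hV _ (hW (φ i).2)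
  choose x hx1 hx2 using h1
  obtain ⟨i, j, hij, h⟩ := main_gen2 p hp2 e he R hR c hc x hx1
  rw [hx2, hx2] at h
  exact hij (φ.injective (Subtype.ext h))

/-- the number of preperiodic points -/
theorem count2 (p : ℕ) [hpp : Fact p.Prime] [CharP k p] (hp2 : p ≠ 2) (e : ℕ) (he : 1 ≤ e)
    (R : k[X]) (hR : R.natDegree = 2) (c : RatFunc k)
    (hc : ∀ a : k, c ≠ algebraMap k (RatFunc k) a) :
    {x : RatFunc k | Pre (fun z : RatFunc k => aeval z (expand k (p ^ e) R) + c) x}.encard ≤ 8 := by
  classical
  set f : RatFunc k → RatFunc k := fun z => aeval z (expand k (p ^ e) R) + c with hf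
  have hinj : Function.Injective (algebraMap k (RatFunc k)) := RingHom.injective _
  have hK : CharP (RatFunc k) p := charP_of_injective_algebraMap hinj p
  by_contra hcon
  rw [not_le] at hcon
  have h9 : (9 : ℕ∞) ≤ {x : RatFunc k | Pre f x}.encard := by
    have := Order.add_one_le_of_lt hcon
    exact_mod_cast this
  obtain ⟨t, ht, htc⟩ := Set.exists_subset_encard_eq h9
  have htf : t.Finite := by
    rw [← Set.encard_lt_top_iff, htc]
    exact ENat.coe_lt_top 9
  have hs : htf.toFinset.card = 9 := by
    have h1 := htf.encard_eq_coe_toFinset_card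
    rw [htc] at h1
    exact_mod_cast h1.symm
  have hfib : ∀ v ∈ htf.toFinset.image f, (htf.toFinset.filter fun x => f x = v).card ≤ 2 := by
    intro v _
    let T : (RatFunc k)[X] := R.map (algebraMap k (RatFunc k)) - C (v - c)
    have hTd : T.natDegree = 2 := by
      show (R.map (algebraMap k (RatFunc k)) - C (v - c)).natDegree = _
      rw [natDegree_sub_C, natDegree_map_eq_of_injective hinj, hR]
    have hT0 : T ≠ 0 := by
      intro h
      rw [h, natDegree_zero] at hTd
      omega
    have hcard : T.roots.toFinset.card ≤ 2 := by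
      rw [← hTd]
      exact (Multiset.toFinset_card_le _).trans (card_roots' T)
    refine le_trans ?_ hcard
    refine Finset.card_le_card_of_injOn (fun x => x ^ p ^ e) ?_ ?_
    · intro x hx
      have hx2 := (Finset.mem_filter.1 hx).2
      show x ^ p ^ e ∈ (T.roots.toFinset : Set (RatFunc k))
      rw [Finset.mem_coe, Multiset.mem_toFinset, mem_roots hT0, IsRoot.def]
      show (R.map (algebraMap k (RatFunc k)) - C (v - c)).eval (x ^ p ^ e) = 0
      rw [eval_sub, eval_C, eval_map_algebraMap, ← expand_aeval, ← hx2, hf]
      ring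
    · intro x _ y _ hxy
      exact iterateFrobenius_inj (RatFunc k) p e hxy
  have h1 := Finset.card_le_mul_card_image htf.toFinset 2 hfib
  have h2 := values2 p hp2 e he R hR c hc (htf.toFinset.image f) (by
    intro v hv
    obtain ⟨x, hx, hxv⟩ := Finset.mem_image.1 hv
    exact ⟨x, ht (htf.mem_toFinset.1 hx), hxv⟩)
  omega

end Pool.Agent.U689.UB
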