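import Pool.Agent.U689.UB.Hom

/-!
# The two main estimates
-/

set_option autoImplicit false

namespace Pool.Agent.U689.UB

open Polynomial Finset UniqueFactorizationMonoid

variable {k : Type*} [Field k]

theorem key_dvd {B U X : k[X]} {s q t : ℕ} (hB : B ≠ 0) (hU : U ≠ 0) (hX : X ≠ 0)
    (h1 : B ^ s ∣ U ^ q)
    (h2 : ∀ π, Prime π → ∀ a, 1 ≤ a → π ^ a ∣ B → ∀ j, π ^ j ∣ U → π ^ (j + a - 1) ∣ X)
    (h3 : ∀ a j, 1 ≤ a → s * a ≤ q * j → t * a ≤ j + a - 1) :
    B ^ t ∣ X := by
  classical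
  have cnt : ∀ {x : k[X]}, x ≠ 0 → ∀ π, Irreducible π → normalize π = π → ∀ j,
      π ^ j ∣ x ↔ j ≤ (normalizedFactors x).count π := by
    intro x hx π hπ hn j
    rw [pow_dvd_iff_le_emultiplicity, emultiplicity_eq_count_normalizedFactors hπ hx, hn]
    exact Nat.cast_le
  rw [dvd_iff_normalizedFactors_le_normalizedFactors (pow_ne_zero _ hB) (pow_ne_zero _ hU),
    normalizedFactors_pow, normalizedFactors_pow, Multiset.le_iff_count] at h1
  rw [dvd_iff_normalizedFactors_le_normalizedFactors (pow_ne_zero _ hB) hX,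
    normalizedFactors_pow, Multiset.le_iff_count]
  intro π
  have h4 := h1 π
  rw [Multiset.count_nsmul, Multiset.count_nsmul] at h4
  rw [Multiset.count_nsmul]
  by_cases hπ : π ∈ normalizedFactors B
  · have h5 : Prime π := prime_of_normalized_factor π hπ
    have h6 : normalize π = π := normalize_normalized_factor π hπ
    have h7 : 1 ≤ (normalizedFactors B).count π := Multiset.one_le_count_iff_mem.2 hπ
    refine (h3 _ _ h7 h4).trans ?_
    rw [← cnt hX π h5.irreducible h6]
    exact h2 π h5 _ h7 ((cnt hB π h5.irreducible h6 _).2 le_rfl) _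
      ((cnt hU π h5.irreducible h6 _).2 le_rfl)
  · rw [Multiset.count_eq_zero_of_notMem hπ, mul_zero]
    exact Nat.zero_le _

theorem num0 {q m a j : ℕ} (hq : 2 ≤ q) (hm : 3 ≤ m) (ha : 1 ≤ a) (h : (q * m - 1) * a ≤ q * j) :
    3 * a ≤ j + a - 1 := by
  obtain ⟨s, hs⟩ : ∃ s, q * m = s + 1 := ⟨q * m - 1, by
    have : 1 ≤ q * m := Nat.mul_pos (by omega) (by omega)
    omega⟩
  rw [hs, Nat.add_sub_cancel] at h
  have h1 : q * 3 ≤ q * m := Nat.mul_le_mul_left q hm
  by_contra hcon
  have h2 : j ≤ 2 * a := by omega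
  have h3 : q * j ≤ q * (2 * a) := Nat.mul_le_mul_left q h2
  have h4 : (q * 3) * a ≤ (s + 1) * a := Nat.mul_le_mul_right a (by omega)
  nlinarith

theorem num {q m n b u S : ℕ} (hq : 1 ≤ q) (hm : 3 ≤ m) (hn : 1 ≤ n)
    (h1 : 3 * b ≤ S)
    (h2 : (b = n ∧ S ≤ 3 * n - 1) ∨
      (b < n ∧ S + (m - 1) * n ≤ u + n + b - 1 ∧ q * u ≤ n + (q * m - 1) * b)) : False := by
  rcases h2 with ⟨rfl, h2⟩ | ⟨hb, h2, h3⟩
  · omega
  · obtain ⟨a, rfl⟩ : ∃ l, n = b + l := ⟨n - b, by omega⟩
    obtain ⟨m, rfl⟩ : ∃ l, m = l + 3 := ⟨m - 3, by omega⟩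
    obtain ⟨s, hs⟩ : ∃ s, q * (m + 3) = s + 1 := ⟨q * (m + 3) - 1, by
      have : 1 ≤ q * (m + 3) := Nat.mul_pos (by omega) (by omega)
      omega⟩
    rw [hs, Nat.add_sub_cancel] at h3
    have e : m + 3 - 1 = m + 2 := by omega
    rw [e] at h2
    have h5 : 3 * b + (m + 2) * (b + a) + 1 ≤ u + (b + a) + b := by
      have : 1 ≤ u + (b + a) + b := by omega
      omega
    have h6 := Nat.mul_le_mul_left q h5
    have h7 : (s + 1) * b = q * (m + 3) * b := by rw [hs]
    have h8 : a ≤ q * a := Nat.le_mul_of_pos_left a hq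
    nlinarith [Nat.zero_le (q * m * a)]

section degrees

variable {X B : k[X]} {n : ℕ}

theorem natDegree_wr (hn : 1 ≤ n) (hX : X.natDegree ≤ n) :
    (derivative X * B - X * derivative B).natDegree ≤ n + B.natDegree - 1 := by
  refine (natDegree_sub_le _ _).trans (max_le ?_ ?_)
  · rcases Nat.eq_zero_or_pos X.natDegree with h | h
    · rw [derivative_of_natDegree_zero h, zero_mul, natDegree_zero]
      exact Nat.zero_le _
    · have h1 := natDegree_mul_le (p := derivative X) (q := B)
      have h2 := natDegree_derivative_le X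
      omega
  · rcases Nat.eq_zero_or_pos B.natDegree with h | h
    · rw [derivative_of_natDegree_zero h, mul_zero, natDegree_zero]
      exact Nat.zero_le _
    · have h1 := natDegree_mul_le (p := X) (q := derivative B)
      have h2 := natDegree_derivative_le B
      omega

theorem natDegree_wr' (U : k[X]) (m : ℕ) :
    (derivative U * B - (m : k[X]) * U * derivative B).natDegree ≤
      U.natDegree + B.natDegree - 1 := by
  refine (natDegree_sub_le _ _).trans (max_le ?_ ?_)
  · rcases Nat.eq_zero_or_pos U.natDegree with h | h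
    · rw [derivative_of_natDegree_zero h, zero_mul, natDegree_zero]
      exact Nat.zero_le _
    · have h1 := natDegree_mul_le (p := derivative U) (q := B)
      have h2 := natDegree_derivative_le U
      omega
  · rcases Nat.eq_zero_or_pos B.natDegree with h | h
    · rw [derivative_of_natDegree_zero h, mul_zero, natDegree_zero]
      exact Nat.zero_le _
    · have h1 := natDegree_mul_le (p := (m : k[X]) * U) (q := derivative B)
      have h2 := natDegree_derivative_le B
      have h3 := natDegree_mul_le (p := (m : k[X])) (q := U)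
      rw [natDegree_natCast, zero_add] at h3
      omega

theorem dvd_wr {U π : k[X]} (m : ℕ) {a : ℕ} (ha : 1 ≤ a) (hB : π ^ a ∣ B) (j : ℕ)
    (hU : π ^ j ∣ U) :
    π ^ (j + a - 1) ∣ derivative U * B - (m : k[X]) * U * derivative B := by
  refine dvd_sub ?_ ?_
  · rcases j with _ | j
    · exact ((pow_dvd_pow π (by omega)).trans hB).mul_left _
    · have e : j + 1 + a - 1 = j + a := by omega
      rw [e, pow_add]
      refine mul_dvd_mul ?_ hB
      have := pow_sub_one_dvd_derivative_of_pow_dvd hU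
      rwa [Nat.add_sub_cancel] at this
  · have e : j + a - 1 = j + (a - 1) := by omega
    rw [e, pow_add, mul_comm (m : k[X]) U, mul_assoc]
    exact mul_dvd_mul hU ((pow_sub_one_dvd_derivative_of_pow_dvd hB).mul_left _)

theorem dvd_D {π : k[X]} {a : ℕ} (hB : π ^ a ∣ B) :
    π ^ (a - 1) ∣ derivative X * B - X * derivative B := by
  refine dvd_sub ?_ ?_
  · exact ((pow_dvd_pow π (by omega)).trans hB).mul_left _
  · exact (pow_sub_one_dvd_derivative_of_pow_dvd hB).mul_left _

end degrees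

section cases

variable {P B X₁ X₂ W : k[X]} {m n q : ℕ}

theorem exists_prime (hB : B ≠ 0) (h : 1 ≤ B.natDegree) : ∃ π, Prime π ∧ π ∣ B := by
  have h1 : ¬ IsUnit B := by
    intro h2
    rw [natDegree_eq_zero_of_isUnit h2] at h
    omega
  obtain ⟨π, h2, h3⟩ := WfDvdMonoid.exists_irreducible_factor h1 hB
  exact ⟨π, h2.prime, h3⟩

theorem not_dvd_of_cop {π : k[X]} (hc : IsCoprime X₁ B) (hπ : Prime π) (h : π ∣ B) : ¬ π ∣ X₁ :=
  fun h1 => hπ.not_unit (hc.isUnit_of_dvd' h1 h)

theorem natDegree_U {U : k[X]} (hU : U ≠ 0) (hW : W.natDegree ≤ n) (hrel : W * B ^ (q * m - 1) = U ^ q) :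
    q * U.natDegree ≤ n + (q * m - 1) * B.natDegree := by
  have h1 := congrArg natDegree hrel
  rw [natDegree_pow] at h1
  rw [← h1]
  refine natDegree_mul_le.trans ?_
  have h2 := natDegree_pow_le (p := B) (n := q * m - 1)
  omega

/-- two different elements with the same derivative -/
theorem caseOne (hm : P.natDegree = m) (hm3 : 3 ≤ m) (hmk : (m : k) ≠ 0) (hq : 2 ≤ q) (hB : B ≠ 0)
    (c₁ : IsCoprime X₁ B) (c₂ : IsCoprime X₂ B) (hn : 1 ≤ n)
    (hdeg : (B.natDegree = n ∧ X₁.natDegree ≤ n ∧ X₂.natDegree ≤ n) ∨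
      (B.natDegree < n ∧ X₁.natDegree = n ∧ X₂.natDegree = n))
    (hW : W.natDegree ≤ n) (hrel : W * B ^ (q * m - 1) = (hom P X₁ B - hom P X₂ B) ^ q)
    (hD : derivative X₁ * B - X₁ * derivative B = derivative X₂ * B - X₂ * derivative B)
    (hD0 : derivative X₁ * B - X₁ * derivative B ≠ 0) (hne : X₁ ≠ X₂) : False := by
  set U := hom P X₁ B - hom P X₂ B with hUd
  set D := derivative X₁ * B - X₁ * derivative B with hDd
  set R := hom' P X₁ B - hom' P X₂ B with hRd
  have hUQ : U = (X₁ - X₂) * quo P X₁ X₂ B := hom_sub P X₁ X₂ B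
  have hRD : R * D = derivative U * B - (m : k[X]) * U * derivative B := by
    have h1 := hom_derivative P X₁ B
    have h2 := hom_derivative P X₂ B
    rw [hm, ← hDd] at h1
    rw [hm, ← hD] at h2
    rw [hRd, hUd, derivative_sub, sub_mul (hom' P X₁ B), ← h1, ← h2]
    ring
  have hX1 : X₁.natDegree ≤ n := by rcases hdeg with h | h <;> omega
  have hX2 : X₂.natDegree ≤ n := by rcases hdeg with h | h <;> omega
  have htop : B.natDegree < n → (quo P X₁ X₂ B).coeff ((m - 1) * n) ≠ 0 ∨
      R.coeff ((m - 1) * n) ≠ 0 := by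
    intro hb
    by_contra hcon
    push Not at hcon
    obtain ⟨h1, h2⟩ := hcon
    have hPm : 1 ≤ P.natDegree := by omega
    have hlc : P.leadingCoeff ≠ 0 := by
      rw [leadingCoeff_ne_zero]
      rintro rfl
      rw [natDegree_zero] at hm
      omega
    have ha2 : X₂.coeff n ≠ 0 := by
      have h3 : X₂.natDegree = n := by rcases hdeg with h | h <;> omega
      have h4 : X₂ ≠ 0 := by
        rintro rfl
        rw [natDegree_zero] at h3
        omega
      rw [← h3]
      exact leadingCoeff_ne_zero.2 h4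
    have h3 := quo_top (P := P) hb hX1 hX2
    have h4 := hom'_top (P := P) hPm hb hX1
    have h5 := hom'_top (P := P) hPm hb hX2
    rw [hm] at h3 h4 h5
    rw [h3] at h1
    rw [hRd, coeff_sub, h4, h5, ← mul_sub] at h2
    refine dich (F := k) (by omega : 1 ≤ m) hmk ha2 ((mul_eq_zero.1 h1).resolve_left hlc)
      (sub_eq_zero.1 ((mul_eq_zero.1 h2).resolve_left (mul_ne_zero hlc hmk)))
  have hdi : quo P X₁ X₂ B ≠ 0 ∨ R ≠ 0 := by
    by_contra hcon
    push Not at hcon
    rcases hdeg with ⟨h1, -⟩ | ⟨h1, -⟩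
    · obtain ⟨π, h2, h3⟩ := exists_prime hB (by omega)
      refine dich_prime (P := P) (A₁ := X₁) h2 h3 (not_dvd_of_cop c₂ h2 h3) (by rwa [hm]) ?_ ?_
      · rw [hcon.1]
        exact dvd_zero _
      · rw [← hRd, hcon.2]
        exact dvd_zero _
    · rcases htop h1 with h2 | h2
      · rw [hcon.1, coeff_zero] at h2
        exact h2 rfl
      · rw [hcon.2, coeff_zero] at h2
        exact h2 rfl
  have hX12 : X₁ - X₂ ≠ 0 := sub_ne_zero.2 hne
  have hU0 : U ≠ 0 := by
    intro h
    rcases hdi with h1 | h1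
    · rw [h] at hUQ
      exact mul_ne_zero hX12 h1 hUQ.symm
    · rw [h, derivative_zero, zero_mul, mul_zero, zero_mul, sub_zero] at hRD
      exact mul_ne_zero h1 hD0 hRD
  have hkey : B ^ 3 ∣ (X₁ - X₂) * D := by
    refine key_dvd hB hU0 (mul_ne_zero hX12 hD0) ⟨W, by rw [← hrel, mul_comm]⟩ ?_
      (fun a j ha h => num0 hq hm3 ha h)
    intro π hπ a ha hπa j hj
    have hπB : π ∣ B := (dvd_pow_self π (by omega)).trans hπa
    by_cases hQ : π ∣ quo P X₁ X₂ B
    · have hR : ¬ π ∣ R := fun hR =>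
        dich_prime (P := P) (A₁ := X₁) hπ hπB (not_dvd_of_cop c₂ hπ hπB) (by rwa [hm]) hQ hR
      have h1 : π ^ (j + a - 1) ∣ R * D := by
        rw [hRD]
        exact dvd_wr m ha hπa j hj
      exact (hπ.pow_dvd_of_dvd_mul_left _ hR h1).mul_left _
    · rw [hUQ] at hj
      have e : j + a - 1 = j + (a - 1) := by omega
      rw [e, pow_add]
      exact mul_dvd_mul (hπ.pow_dvd_of_dvd_mul_right j hQ hj) (dvd_D hπa)
  have hdk := natDegree_le_of_dvd hkey (mul_ne_zero hX12 hD0)
  rw [natDegree_pow, natDegree_mul hX12 hD0] at hdk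
  have hdD := natDegree_wr (X := X₁) (B := B) hn hX1
  rw [← hDd] at hdD
  have hdX : (X₁ - X₂).natDegree ≤ n := (natDegree_sub_le _ _).trans (max_le hX1 hX2)
  refine num (by omega : 1 ≤ q) hm3 hn hdk (u := U.natDegree) ?_
  rcases hdeg with ⟨h1, -⟩ | ⟨h1, -⟩
  · left
    exact ⟨h1, by omega⟩
  · right
    refine ⟨h1, ?_, natDegree_U hU0 hW hrel⟩
    rcases htop h1 with h2 | h2
    · have h3 := le_natDegree_of_ne_zero h2
      have h4 : quo P X₁ X₂ B ≠ 0 := by
        intro h
        rw [h, coeff_zero] at h2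
        exact h2 rfl
      have h5 := congrArg natDegree hUQ
      rw [natDegree_mul hX12 h4] at h5
      omega
    · have h3 := le_natDegree_of_ne_zero h2
      have h4 : R ≠ 0 := by
        intro h
        rw [h, coeff_zero] at h2
        exact h2 rfl
      have h5 := congrArg natDegree hRD
      rw [natDegree_mul h4 hD0] at h5
      have h6 := natDegree_wr' (B := B) U m
      have h7 : 2 * 1 ≤ (m - 1) * n := Nat.mul_le_mul (by omega) hn
      omega

/-- an element next to one with zero derivative -/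
theorem caseTwo (hm : P.natDegree = m) (hm3 : 3 ≤ m) (hmk : (m : k) ≠ 0) (hq : 2 ≤ q) (hB : B ≠ 0)
    (c₁ : IsCoprime X₁ B) (hn : 1 ≤ n)
    (hdeg : (B.natDegree = n ∧ X₁.natDegree ≤ n) ∨ (B.natDegree < n ∧ X₁.natDegree = n))
    (hW : W.natDegree ≤ n) (hrel : W * B ^ (q * m - 1) = (hom P X₁ B - hom P X₂ B) ^ q)
    (hD2 : derivative X₂ * B - X₂ * derivative B = 0) :
    derivative X₁ * B - X₁ * derivative B = 0 := by
  by_contra hD0
  set U := hom P X₁ B - hom P X₂ B with hUd
  set D := derivative X₁ * B - X₁ * derivative B with hDd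
  set R := hom' P X₁ B with hRd
  have hRD : R * D = derivative U * B - (m : k[X]) * U * derivative B := by
    have h1 := hom_derivative P X₁ B
    have h2 := hom_derivative P X₂ B
    rw [hm, ← hDd] at h1
    rw [hm, hD2, mul_zero] at h2
    rw [hRd, ← h1, hUd, derivative_sub]
    linear_combination h2
  have hX1 : X₁.natDegree ≤ n := by rcases hdeg with h | h <;> omega
  have htop : B.natDegree < n → R.coeff ((m - 1) * n) ≠ 0 := by
    intro hb
    have hPm : 1 ≤ P.natDegree := by omega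
    have hlc : P.leadingCoeff ≠ 0 := by
      rw [leadingCoeff_ne_zero]
      rintro rfl
      rw [natDegree_zero] at hm
      omega
    have ha1 : X₁.coeff n ≠ 0 := by
      have h3 : X₁.natDegree = n := by rcases hdeg with h | h <;> omega
      have h4 : X₁ ≠ 0 := by
        rintro rfl
        rw [natDegree_zero] at h3
        omega
      rw [← h3]
      exact leadingCoeff_ne_zero.2 h4
    have h4 := hom'_top (P := P) hPm hb hX1
    rw [hm] at h4
    rw [hRd, h4]
    exact mul_ne_zero (mul_ne_zero hlc hmk) (pow_ne_zero _ ha1)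
  have hR0 : R ≠ 0 := by
    intro h
    rcases hdeg with ⟨h1, -⟩ | ⟨h1, -⟩
    · obtain ⟨π, h2, h3⟩ := exists_prime hB (by omega)
      refine not_dvd_hom' (P := P) h2 h3 (not_dvd_of_cop c₁ h2 h3) (by rwa [hm]) ?_
      rw [← hRd, h]
      exact dvd_zero _
    · have h2 := htop h1
      rw [h, coeff_zero] at h2
      exact h2 rfl
  have hU0 : U ≠ 0 := by
    intro h
    rw [h, derivative_zero, zero_mul, mul_zero, zero_mul, sub_zero] at hRD
    exact mul_ne_zero hR0 hD0 hRD
  have hkey : B ^ 3 ∣ D := by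
    refine key_dvd hB hU0 hD0 ⟨W, by rw [← hrel, mul_comm]⟩ ?_
      (fun a j ha h => num0 hq hm3 ha h)
    intro π hπ a ha hπa j hj
    have hπB : π ∣ B := (dvd_pow_self π (by omega)).trans hπa
    have hR : ¬ π ∣ R := not_dvd_hom' (P := P) hπ hπB (not_dvd_of_cop c₁ hπ hπB) (by rwa [hm])
    have h1 : π ^ (j + a - 1) ∣ R * D := by
      rw [hRD]
      exact dvd_wr m ha hπa j hj
    exact hπ.pow_dvd_of_dvd_mul_left _ hR h1
  have hdk := natDegree_le_of_dvd hkey hD0
  rw [natDegree_pow] at hdk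
  have hdD := natDegree_wr (X := X₁) (B := B) hn hX1
  rw [← hDd] at hdD
  refine num (by omega : 1 ≤ q) hm3 hn hdk (u := U.natDegree) ?_
  rcases hdeg with ⟨h1, -⟩ | ⟨h1, -⟩
  · left
    exact ⟨h1, by omega⟩
  · right
    refine ⟨h1, ?_, natDegree_U hU0 hW hrel⟩
    have h3 := le_natDegree_of_ne_zero (htop h1)
    have h5 := congrArg natDegree hRD
    rw [natDegree_mul hR0 hD0] at h5
    have h6 := natDegree_wr' (B := B) U m
    have h7 : 2 * 1 ≤ (m - 1) * n := Nat.mul_le_mul (by omega) hn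
    omega

end cases

end Pool.Agent.U689.UB
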