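import Pool.Agent.U689.UB.Num2
import Pool.Agent.U689.UB.Core

/-!
# Five different points with the same derivative
-/

set_option autoImplicit false

namespace Pool.Agent.U689.UB

open Polynomial Finset

variable {k : Type*} [Field k]

theorem quo_two {P : k[X]} (hP : P.natDegree = 2) (A₁ A₂ B : k[X]) :
    quo P A₁ A₂ B = C (P.coeff 2) * (A₁ + A₂) + C (P.coeff 1) * B := by
  unfold quo
  rw [hP, Finset.sum_range_succ, Finset.sum_range_succ, Finset.sum_range_succ, Finset.sum_range_zero]
  simp only [Finset.sum_range_succ, Finset.sum_range_zero]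
  norm_num
  ring

theorem hom'_two {P : k[X]} (hP : P.natDegree = 2) (A B : k[X]) :
    hom' P A B = 2 * C (P.coeff 2) * A + C (P.coeff 1) * B := by
  unfold hom'
  rw [hP, Finset.sum_range_succ, Finset.sum_range_succ, Finset.sum_range_succ, Finset.sum_range_zero]
  norm_num
  ring

section

variable {P B : k[X]} {n q : ℕ}

theorem five [IsAlgClosed k] (hP : P.natDegree = 2) (h2k : (2 : k) ≠ 0) (hq : 3 ≤ q) (hB : B ≠ 0)
    (hn : 1 ≤ n) (Y : Fin 5 → k[X]) (hinj : Function.Injective Y) (hcop : ∀ i, IsCoprime (Y i) B)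
    (hdeg : (B.natDegree = n ∧ ∀ i, (Y i).natDegree ≤ n) ∨
      (B.natDegree < n ∧ ∀ i, (Y i).natDegree = n))
    (hrel : ∀ i j, ∃ V : k[X], V.natDegree ≤ n ∧
      V * B ^ (q * 2 - 1) = (hom P (Y i) B - hom P (Y j) B) ^ q)
    (hpre : ∀ i j, ∃ U : k[X], (Y i - Y j) * B ^ (q * 2 - 1) = U ^ q)
    (hD : ∀ i, derivative (Y i) * B - Y i * derivative B =
      derivative (Y 0) * B - Y 0 * derivative B)
    (hD0 : derivative (Y 0) * B - Y 0 * derivative B ≠ 0) : False := by
  classical
  set W := derivative (Y 0) * B - Y 0 * derivative B with hW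
  set a := P.coeff 2 with ha
  have ha0 : a ≠ 0 := by
    have h : P ≠ 0 := by
      rintro rfl
      simp at hP
    have := leadingCoeff_ne_zero.2 h
    rwa [leadingCoeff, hP] at this
  have hYn : ∀ i, (Y i).natDegree ≤ n := by
    rcases hdeg with ⟨-, h⟩ | ⟨-, h⟩
    · exact h
    · exact fun i => (h i).le
  have hBn : B.natDegree ≤ n := by
    rcases hdeg with ⟨h, -⟩ | ⟨h, -⟩
    · exact h.le
    · exact h.le
  -- the differences
  let Δ : Fin 5 × Fin 5 → k[X] := fun x => Y x.1 - Y x.2
  have hΔ0 : ∀ x ∈ prs, Δ x ≠ 0 := by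
    intro x hx h
    have h1 : x.1 = x.2 := hinj (sub_eq_zero.1 h)
    have h2 : x.1 < x.2 := (Finset.mem_filter.1 hx).2
    exact absurd h1 h2.ne
  have hΔn : ∀ x, (Δ x).natDegree ≤ n := fun x =>
    (natDegree_sub_le _ _).trans (max_le (hYn _) (hYn _))
  have hWn : W.natDegree ≤ n + B.natDegree - 1 := natDegree_wr hn (hYn 0)
  let H : Fin 5 × Fin 5 → k[X] := fun x => hom P (Y x.1) B - hom P (Y x.2) B
  have hHQ : ∀ x, H x = Δ x * (C a * (Y x.1 + Y x.2) + C (P.coeff 1) * B) := by
    intro x
    show hom P (Y x.1) B - hom P (Y x.2) B = _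
    rw [hom_sub, quo_two hP]
  have hRW : ∀ x, 2 * C a * Δ x * W = derivative (H x) * B - ((2 : ℕ) : k[X]) * H x * derivative B := by
    intro x
    have e1 := hom_derivative P (Y x.1) B
    have e2 := hom_derivative P (Y x.2) B
    rw [hP, hD, hom'_two hP] at e1 e2
    show 2 * C a * (Y x.1 - Y x.2) * W =
      derivative (hom P (Y x.1) B - hom P (Y x.2) B) * B -
        ((2 : ℕ) : k[X]) * (hom P (Y x.1) B - hom P (Y x.2) B) * derivative B
    rw [derivative_sub]
    linear_combination e2 - e1
  have h2C : (2 : k[X]) * C a ≠ 0 := by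
    have h3 : (2 : k[X]) = C (2 : k) := (map_ofNat C 2).symm
    rw [h3, ← C_mul]
    exact C_ne_zero.2 (mul_ne_zero h2k ha0)
  have hH0 : ∀ x ∈ prs, H x ≠ 0 := by
    intro x hx h
    have h3 := hRW x
    rw [h, derivative_zero, zero_mul, mul_zero, zero_mul, sub_zero] at h3
    exact mul_ne_zero (mul_ne_zero h2C (hΔ0 x hx)) hD0 h3
  have hV : ∀ x ∈ prs, ∃ V : k[X], V ≠ 0 ∧ V.natDegree ≤ n ∧ V * B ^ (q * 2 - 1) = H x ^ q := by
    intro x hx
    obtain ⟨V, h3, h4⟩ := hrel x.1 x.2
    refine ⟨V, ?_, h3, h4⟩
    rintro rfl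
    rw [zero_mul] at h4
    exact pow_ne_zero q (hH0 x hx) h4.symm
  have hU : ∀ x ∈ prs, ∃ U : k[X], U ≠ 0 ∧ Δ x * B ^ (q * 2 - 1) = U ^ q := by
    intro x hx
    obtain ⟨U, h4⟩ := hpre x.1 x.2
    refine ⟨U, ?_, h4⟩
    rintro rfl
    rw [zero_pow (by omega)] at h4
    exact mul_ne_zero (hΔ0 x hx) (pow_ne_zero _ hB) h4
  have hBp : B ^ (q * 2 - 1) ≠ 0 := pow_ne_zero _ hB
  -- multiplicities
  have rpow : ∀ (t : k) (F : k[X]) (j : ℕ), rootMultiplicity t (F ^ j) = j * rootMultiplicity t F := by
    intro t F j
    rw [← count_roots, roots_pow, Multiset.count_nsmul, count_roots]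
  have rmul : ∀ (t : k) (F G : k[X]), F ≠ 0 → G ≠ 0 →
      rootMultiplicity t (F * G) = rootMultiplicity t F + rootMultiplicity t G :=
    fun t F G h3 h4 => rootMultiplicity_mul (mul_ne_zero h3 h4)
  -- the finite places
  have hfin : ∀ t ∈ B.roots.toFinset, (30 * q + 20) * rootMultiplicity t B ≤
      (q + 2) * ∑ x ∈ prs, rootMultiplicity t (Δ x) + 10 * q * rootMultiplicity t W := by
    intro t ht
    have htB : B.IsRoot t := by
      rw [Multiset.mem_toFinset, mem_roots hB] at ht
      exact ht
    have hν : 1 ≤ rootMultiplicity t B := (rootMultiplicity_pos hB).2 htB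
    have hYt : ∀ i, (Y i).eval t ≠ 0 := by
      intro i h3
      have h4 : X - C t ∣ Y i := dvd_iff_isRoot.2 h3
      have h5 : X - C t ∣ B := dvd_iff_isRoot.2 htB
      exact not_isUnit_X_sub_C t ((hcop i).isUnit_of_dvd' h4 h5)
    have hBt : B.eval t = 0 := htB
    have hHt : ∀ x ∈ prs, (q * 2 - 1) * rootMultiplicity t B ≤ q * rootMultiplicity t (H x) := by
      intro x hx
      obtain ⟨V, h3, -, h4⟩ := hV x hx
      have h5 := congrArg (rootMultiplicity t) h4
      rw [rmul t _ _ h3 hBp, rpow, rpow] at h5
      omega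
    have hsq : ∀ x ∈ prs, ((Y x.1).eval t - (Y x.2).eval t) * ((Y x.1).eval t + (Y x.2).eval t) = 0 := by
      intro x hx
      have h3 := hHt x hx
      have h4 : (H x).eval t = 0 := by
        have h5 : 0 < rootMultiplicity t (H x) := by
          rcases Nat.eq_zero_or_pos (rootMultiplicity t (H x)) with h | h
          · rw [h, mul_zero] at h3
            have : 1 * 1 ≤ (q * 2 - 1) * rootMultiplicity t B :=
              Nat.mul_le_mul (by omega) hν
            omega
          · exact h
        exact (rootMultiplicity_pos (hH0 x hx)).1 h5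
      rw [hHQ, eval_mul, eval_add, eval_mul, eval_mul, eval_C, eval_C, hBt, mul_zero, add_zero,
        eval_add] at h4
      have h6 : (Δ x).eval t = (Y x.1).eval t - (Y x.2).eval t := eval_sub ..
      rw [h6] at h4
      have h7 : a * (((Y x.1).eval t - (Y x.2).eval t) * ((Y x.1).eval t + (Y x.2).eval t)) = 0 := by
        linear_combination h4
      exact (mul_eq_zero.1 h7).resolve_left ha0
    have hcase : ∀ i, (Y i).eval t = (Y 0).eval t ∨ (Y i).eval t = -(Y 0).eval t := by
      intro i
      rcases Fin.eq_zero_or_eq_succ i with rfl | ⟨j, rfl⟩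
      · exact Or.inl rfl
      · have h3 := hsq (0, j.succ) (Finset.mem_filter.2 ⟨Finset.mem_univ _, Fin.succ_pos j⟩)
        rcases mul_eq_zero.1 h3 with h4 | h4
        · exact Or.inl (sub_eq_zero.1 h4).symm
        · right
          linear_combination h4
    refine loc hq hν (fun x => rootMultiplicity t (Δ x))
      (fun i => decide ((Y i).eval t = (Y 0).eval t)) ?_ ?_ ?_ ?_
    · intro x hx hxc
      have h3 : (Y x.1).eval t = (Y x.2).eval t := by
        have h4 : ((Y x.1).eval t = (Y 0).eval t) ↔ ((Y x.2).eval t = (Y 0).eval t) := by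
          simpa using hxc
        rcases hcase x.1 with h5 | h5
        · rw [h5, h4.1 h5]
        · by_cases h6 : (Y x.2).eval t = (Y 0).eval t
          · rw [h4.2 h6, h6]
          · rw [h5, (hcase x.2).resolve_left h6]
      have h4 : rootMultiplicity t (H x) = rootMultiplicity t (Δ x) := by
        have h5 : (C a * (Y x.1 + Y x.2) + C (P.coeff 1) * B).eval t ≠ 0 := by
          rw [eval_add, eval_mul, eval_mul, eval_C, eval_C, hBt, mul_zero, add_zero, eval_add, ← h3]
          have h6 : a * ((Y x.1).eval t + (Y x.1).eval t) = a * 2 * (Y x.1).eval t := by ring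
          rw [h6]
          exact mul_ne_zero (mul_ne_zero ha0 h2k) (hYt _)
        have h7 : (C a * (Y x.1 + Y x.2) + C (P.coeff 1) * B) ≠ 0 := by
          intro h8
          rw [h8, eval_zero] at h5
          exact h5 rfl
        rw [hHQ, rmul t _ _ (hΔ0 x hx) h7, rootMultiplicity_eq_zero h5, add_zero]
      show _ ≤ q * rootMultiplicity t (Δ x)
      rw [← h4]
      exact hHt x hx
    · intro x hx
      obtain ⟨U, h3, h4⟩ := hU x hx
      have h5 := congrArg (rootMultiplicity t) h4
      rw [rmul t _ _ (hΔ0 x hx) hBp, rpow, rpow] at h5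
      exact ⟨_, h5⟩
    · intro x hx hxc
      have h3 : (Δ x).eval t ≠ 0 := by
        have h6 : (Δ x).eval t = (Y x.1).eval t - (Y x.2).eval t := eval_sub ..
        have h4 : ¬ (((Y x.1).eval t = (Y 0).eval t) ↔ ((Y x.2).eval t = (Y 0).eval t)) := by
          simpa using hxc
        rw [h6]
        intro h7
        have h8 := sub_eq_zero.1 h7
        apply h4
        rw [h8]
      have h4 : rootMultiplicity t (Δ x) = 0 := rootMultiplicity_eq_zero h3
      refine ⟨h4, ?_⟩
      have h5 : rootMultiplicity t (H x) + rootMultiplicity t B ≤ rootMultiplicity t W + 1 := by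
        have h6 : (X - C t) ^ (rootMultiplicity t (H x) + rootMultiplicity t B - 1) ∣
            2 * C a * Δ x * W := by
          rw [hRW x]
          exact dvd_wr 2 hν (pow_rootMultiplicity_dvd B t) _ (pow_rootMultiplicity_dvd (H x) t)
        have h7 : rootMultiplicity t (2 * C a * Δ x * W) = rootMultiplicity t W := by
          rw [rmul t _ _ (mul_ne_zero h2C (hΔ0 x hx)) hD0, rmul t _ _ h2C (hΔ0 x hx), h4]
          have h8 : (2 * C a : k[X]) = C (2 * a) := by rw [C_mul, map_ofNat]
          rw [h8, rootMultiplicity_C]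
          omega
        have h9 := (le_rootMultiplicity_iff
          (mul_ne_zero (mul_ne_zero h2C (hΔ0 x hx)) hD0)).2 h6
        rw [h7] at h9
        omega
      have h6 := hHt x hx
      have h7 : q * (rootMultiplicity t (H x) + rootMultiplicity t B) ≤
          q * (rootMultiplicity t W + 1) := Nat.mul_le_mul_left _ h5
      obtain ⟨r, hr⟩ : ∃ r, q = r + 1 := ⟨q - 1, by omega⟩
      have e1 : q * 3 - 1 = (q * 2 - 1) + q := by omega
      rw [e1, add_mul]
      calc (q * 2 - 1) * rootMultiplicity t B + q * rootMultiplicity t B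
          ≤ q * rootMultiplicity t (H x) + q * rootMultiplicity t B := by omega
        _ = q * (rootMultiplicity t (H x) + rootMultiplicity t B) := by ring
        _ ≤ _ := h7
    · have h3 : (X - C t) ^ (rootMultiplicity t B - 1) ∣ W :=
        dvd_D (pow_rootMultiplicity_dvd B t)
      have h4 := (le_rootMultiplicity_iff hD0).2 h3
      omega
  -- sum over the finite places
  have sumle : ∀ F : k[X], F ≠ 0 →
      ∑ t ∈ B.roots.toFinset, rootMultiplicity t F ≤ F.natDegree := by
    intro F hF
    calc ∑ t ∈ B.roots.toFinset, rootMultiplicity t F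
        ≤ ∑ t ∈ B.roots.toFinset ∪ F.roots.toFinset, rootMultiplicity t F :=
          Finset.sum_le_sum_of_subset Finset.subset_union_left
      _ = ∑ t ∈ B.roots.toFinset ∪ F.roots.toFinset, F.roots.count t := by
          simp only [count_roots]
      _ = F.roots.card := Multiset.sum_count_eq_card (fun t ht =>
          Finset.mem_union_right _ (Multiset.mem_toFinset.2 ht))
      _ ≤ F.natDegree := card_roots' F
  have sumB : ∑ t ∈ B.roots.toFinset, rootMultiplicity t B = B.natDegree := by
    have h3 : ∑ t ∈ B.roots.toFinset, B.roots.count t = B.roots.card :=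
      Multiset.sum_count_eq_card (fun t ht => Multiset.mem_toFinset.2 ht)
    simp only [count_roots] at h3
    rw [h3, ← (IsAlgClosed.splits B).natDegree_eq_card_roots]
  have hglob : (30 * q + 20) * B.natDegree ≤
      (q + 2) * ∑ x ∈ prs, (Δ x).natDegree + 10 * q * W.natDegree := by
    have h3 := Finset.sum_le_sum hfin
    rw [← Finset.mul_sum, sumB, Finset.sum_add_distrib, ← Finset.mul_sum, ← Finset.mul_sum,
      Finset.sum_comm] at h3
    refine h3.trans (Nat.add_le_add (Nat.mul_le_mul_left _ ?_) (Nat.mul_le_mul_left _ (sumle W hD0)))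
    exact Finset.sum_le_sum fun x hx => sumle _ (hΔ0 x hx)
  rcases hdeg with ⟨hb, -⟩ | ⟨hb, hYe⟩
  · have h3 : ∑ x ∈ prs, (Δ x).natDegree ≤ 10 * n := by
      calc ∑ x ∈ prs, (Δ x).natDegree ≤ ∑ _x ∈ prs, n := Finset.sum_le_sum fun x _ => hΔn x
        _ = 10 * n := by rw [Finset.sum_const, card_prs, smul_eq_mul]
    rw [hb] at hglob hWn
    have h4 : (q + 2) * ∑ x ∈ prs, (Δ x).natDegree ≤ (q + 2) * (10 * n) := Nat.mul_le_mul_left _ h3
    have h5 : 10 * q * W.natDegree ≤ 10 * q * (n + n - 1) := Nat.mul_le_mul_left _ hWn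
    obtain ⟨l, rfl⟩ : ∃ l, n = l + 1 := ⟨n - 1, by omega⟩
    have e1 : l + 1 + (l + 1) - 1 = 2 * l + 1 := by omega
    rw [e1] at h5
    nlinarith
  · -- the infinite place
    have hinf : (30 * q + 20) * (n - B.natDegree) ≤
        (q + 2) * ∑ x ∈ prs, (n - (Δ x).natDegree) + 10 * q * (2 * n - 1 - W.natDegree) := by
      set b := B.natDegree with hbd
      have hbc : B.coeff n = 0 := coeff_eq_zero_of_natDegree_lt hb
      have hy0 : ∀ i, (Y i).coeff n ≠ 0 := by
        intro i
        have h4 : Y i ≠ 0 := by
          intro h5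
          have h6 := hYe i
          rw [h5, natDegree_zero] at h6
          omega
        rw [← hYe i]
        exact leadingCoeff_ne_zero.2 h4
      have hHd : ∀ x ∈ prs, q * (H x).natDegree ≤ n + (q * 2 - 1) * b := by
        intro x hx
        obtain ⟨V, h3, h4, h5⟩ := hV x hx
        have h6 := congrArg natDegree h5
        rw [natDegree_mul h3 hBp, natDegree_pow, natDegree_pow, ← hbd] at h6
        omega
      have hHlt : ∀ x ∈ prs, (H x).natDegree < 2 * n := by
        intro x hx
        have h3 := hHd x hx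
        by_contra hcon
        have h4 : q * (2 * n) ≤ q * (H x).natDegree := Nat.mul_le_mul_left _ (by omega)
        have h5 : (q * 2 - 1) * b < (q * 2 - 1) * n :=
          Nat.mul_lt_mul_of_pos_left hb (by omega)
        have h6 : (q * 2 - 1) * n + n = q * (2 * n) := by
          have : (q * 2 - 1) * n + n = (q * 2 - 1 + 1) * n := by ring
          rw [this, Nat.sub_add_cancel (by omega)]
          ring
        omega
      have hQc : ∀ x : Fin 5 × Fin 5, (C a * (Y x.1 + Y x.2) + C (P.coeff 1) * B).coeff n =
          a * ((Y x.1).coeff n + (Y x.2).coeff n) := by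
        intro x
        rw [coeff_add, coeff_C_mul, coeff_C_mul, coeff_add, hbc, mul_zero, add_zero]
      have hQn : ∀ x : Fin 5 × Fin 5,
          (C a * (Y x.1 + Y x.2) + C (P.coeff 1) * B).natDegree ≤ n := by
        intro x
        refine (natDegree_add_le _ _).trans (max_le ?_ ?_)
        · exact (natDegree_C_mul_le _ _).trans ((natDegree_add_le _ _).trans
            (max_le (hYn _) (hYn _)))
        · exact (natDegree_C_mul_le _ _).trans hb.le
      have hΔc : ∀ x : Fin 5 × Fin 5, (Δ x).coeff n = (Y x.1).coeff n - (Y x.2).coeff n :=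
        fun x => coeff_sub ..
      have hsq : ∀ x ∈ prs, ((Y x.1).coeff n - (Y x.2).coeff n) *
          ((Y x.1).coeff n + (Y x.2).coeff n) = 0 := by
        intro x hx
        have h3 : (H x).coeff (n + n) = 0 :=
          coeff_eq_zero_of_natDegree_lt (by have := hHlt x hx; omega)
        rw [hHQ, coeff_mul_add_eq_of_natDegree_le (hΔn x) (hQn x), hΔc, hQc] at h3
        have h7 : a * (((Y x.1).coeff n - (Y x.2).coeff n) *
            ((Y x.1).coeff n + (Y x.2).coeff n)) = 0 := by
          linear_combination h3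
        exact (mul_eq_zero.1 h7).resolve_left ha0
      have hcase : ∀ i, (Y i).coeff n = (Y 0).coeff n ∨ (Y i).coeff n = -(Y 0).coeff n := by
        intro i
        rcases Fin.eq_zero_or_eq_succ i with rfl | ⟨j, rfl⟩
        · exact Or.inl rfl
        · have h3 := hsq (0, j.succ) (Finset.mem_filter.2 ⟨Finset.mem_univ _, Fin.succ_pos j⟩)
          rcases mul_eq_zero.1 h3 with h4 | h4
          · exact Or.inl (sub_eq_zero.1 h4).symm
          · right
            linear_combination h4
      refine loc hq (by omega) (fun x => n - (Δ x).natDegree)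
        (fun i => decide ((Y i).coeff n = (Y 0).coeff n)) ?_ ?_ ?_ ?_
      · intro x hx hxc
        have h3 : (Y x.1).coeff n = (Y x.2).coeff n := by
          have h4 : ((Y x.1).coeff n = (Y 0).coeff n) ↔ ((Y x.2).coeff n = (Y 0).coeff n) := by
            simpa using hxc
          rcases hcase x.1 with h5 | h5
          · rw [h5, h4.1 h5]
          · by_cases h6 : (Y x.2).coeff n = (Y 0).coeff n
            · rw [h4.2 h6, h6]
            · rw [h5, (hcase x.2).resolve_left h6]
        have h5 : (C a * (Y x.1 + Y x.2) + C (P.coeff 1) * B).coeff n ≠ 0 := by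
          rw [hQc, ← h3]
          have h6 : a * ((Y x.1).coeff n + (Y x.1).coeff n) = a * 2 * (Y x.1).coeff n := by ring
          rw [h6]
          exact mul_ne_zero (mul_ne_zero ha0 h2k) (hy0 _)
        have h7 : (C a * (Y x.1 + Y x.2) + C (P.coeff 1) * B) ≠ 0 := by
          intro h8
          rw [h8, coeff_zero] at h5
          exact h5 rfl
        have h8 := le_natDegree_of_ne_zero h5
        have h9 : (H x).natDegree = (Δ x).natDegree +
            (C a * (Y x.1 + Y x.2) + C (P.coeff 1) * B).natDegree := by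
          rw [hHQ, natDegree_mul (hΔ0 x hx) h7]
        have h10 := hHd x hx
        have h11 : q * ((Δ x).natDegree + n) ≤ n + (q * 2 - 1) * b :=
          (Nat.mul_le_mul_left q (by omega)).trans h10
        have h12 := hΔn x
        obtain ⟨ν, hν⟩ : ∃ ν, n = b + ν := ⟨n - b, by omega⟩
        obtain ⟨u, hu⟩ : ∃ u, n = (Δ x).natDegree + u := ⟨n - (Δ x).natDegree, by omega⟩
        have e1 : n - b = ν := by omega
        have e2 : n - (Δ x).natDegree = u := by omega
        rw [e1]
        show _ ≤ q * (n - (Δ x).natDegree)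
        rw [e2]
        obtain ⟨s, hs⟩ : ∃ s, q * 2 = s + 1 := ⟨q * 2 - 1, by omega⟩
        have e3 : q * 2 - 1 = s := by omega
        rw [e3] at h11 ⊢
        have h13 : q * ((Δ x).natDegree + n) + q * u = q * 2 * n := by
          rw [← mul_add]
          have : (Δ x).natDegree + n + u = 2 * n := by omega
          rw [this]
          ring
        have h14 : q * 2 * n = s * b + s * ν + n := by
          rw [hs, hν]
          ring
        omega
      · intro x hx
        obtain ⟨U, h3, h4⟩ := hU x hx
        have h5 := congrArg natDegree h4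
        rw [natDegree_mul (hΔ0 x hx) hBp, natDegree_pow, natDegree_pow, ← hbd] at h5
        have h12 := hΔn x
        refine ⟨2 * n - U.natDegree, ?_⟩
        obtain ⟨s, hs⟩ : ∃ s, q * 2 = s + 1 := ⟨q * 2 - 1, by omega⟩
        have e3 : q * 2 - 1 = s := by omega
        rw [e3] at h5 ⊢
        have h6 : q * U.natDegree ≤ q * (2 * n) := by
          have h7 : s * b ≤ s * n := Nat.mul_le_mul_left _ hb.le
          have h8 : q * (2 * n) = s * n + n := by
            have : q * (2 * n) = q * 2 * n := by ring
            rw [this, hs]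
            ring
          omega
        rw [Nat.mul_sub, Nat.mul_sub]
        have h8 : q * (2 * n) = s * n + n := by
          have : q * (2 * n) = q * 2 * n := by ring
          rw [this, hs]
          ring
        have h7 : s * b ≤ s * n := Nat.mul_le_mul_left _ hb.le
        show n - (Δ x).natDegree + _ = _
        omega
      · intro x hx hxc
        have h3 : (Δ x).coeff n ≠ 0 := by
          have h4 : ¬ (((Y x.1).coeff n = (Y 0).coeff n) ↔ ((Y x.2).coeff n = (Y 0).coeff n)) := by
            simpa using hxc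
          rw [hΔc]
          intro h7
          have h8 := sub_eq_zero.1 h7
          apply h4
          rw [h8]
        have h4 : (Δ x).natDegree = n := le_antisymm (hΔn x) (le_natDegree_of_ne_zero h3)
        refine ⟨by show n - (Δ x).natDegree = 0; omega, ?_⟩
        have h5 := congrArg natDegree (hRW x)
        rw [natDegree_mul (mul_ne_zero h2C (hΔ0 x hx)) hD0, natDegree_mul h2C (hΔ0 x hx), h4] at h5
        have h6 := natDegree_wr' (B := B) (H x) 2
        have h7 := hHd x hx
        have h8 : n + W.natDegree ≤ (H x).natDegree + b - 1 := by omega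
        obtain ⟨ν, hν⟩ : ∃ ν, n = b + ν := ⟨n - b, by omega⟩
        have e1 : n - b = ν := by omega
        rw [e1]
        have h9 : q * (n + W.natDegree + 1) ≤ q * ((H x).natDegree + b) :=
          Nat.mul_le_mul_left _ (by omega)
        have h10 : W.natDegree ≤ n + b - 1 := hWn
        obtain ⟨s, hs⟩ : ∃ s, q * 2 = s + 1 := ⟨q * 2 - 1, by omega⟩
        have e3 : q * 2 - 1 = s := by omega
        have e4 : q * 3 - 1 = s + q := by omega
        rw [e3] at h7
        rw [e4]
        obtain ⟨w, hw⟩ : ∃ w, 2 * n = W.natDegree + 1 + w := ⟨2 * n - 1 - W.natDegree, by omega⟩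
        have e5 : 2 * n - 1 - W.natDegree = w := by omega
        rw [e5]
        -- q (n + W + 1) ≤ q H + q b ≤ n + s b + q b
        have h11 : q * (n + W.natDegree + 1) + q * w = q * 3 * n := by
          rw [← mul_add]
          have : n + W.natDegree + 1 + w = 3 * n := by omega
          rw [this]
          ring
        have h12 : q * 3 * n = s * b + s * ν + n + q * b + q * ν := by
          have : q * 3 * n = q * 2 * n + q * n := by ring
          rw [this, hs, hν]
          ring
        have h13 : q * ((H x).natDegree + b) = q * (H x).natDegree + q * b := by ring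
        have h14 : (s + q) * ν = s * ν + q * ν := by ring
        have h15 : q * (w + 1) = q * w + q := by ring
        rw [h14, h15]
        omega
      · have h10 : W.natDegree ≤ n + b - 1 := hWn
        omega
    have h3 : (30 * q + 20) * B.natDegree + (30 * q + 20) * (n - B.natDegree) =
        (30 * q + 20) * n := by
      rw [← mul_add]
      congr 1
      omega
    have h4 : ∑ x ∈ prs, (Δ x).natDegree + ∑ x ∈ prs, (n - (Δ x).natDegree) = 10 * n := by
      rw [← Finset.sum_add_distrib]
      calc ∑ x ∈ prs, ((Δ x).natDegree + (n - (Δ x).natDegree)) = ∑ _x ∈ prs, n :=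
            Finset.sum_congr rfl fun x _ => by have := hΔn x; omega
        _ = 10 * n := by rw [Finset.sum_const, card_prs, smul_eq_mul]
    have h5 : W.natDegree + (2 * n - 1 - W.natDegree) = 2 * n - 1 := by
      have h10 : W.natDegree ≤ n + B.natDegree - 1 := hWn
      omega
    have h6 : (q + 2) * ∑ x ∈ prs, (Δ x).natDegree + (q + 2) * ∑ x ∈ prs, (n - (Δ x).natDegree) =
        (q + 2) * (10 * n) := by
      rw [← mul_add, h4]
    have h7 : 10 * q * W.natDegree + 10 * q * (2 * n - 1 - W.natDegree) =
        10 * q * (2 * n - 1) := by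
      rw [← mul_add, h5]
    obtain ⟨l, rfl⟩ : ∃ l, n = l + 1 := ⟨n - 1, by omega⟩
    have e1 : 2 * (l + 1) - 1 = 2 * l + 1 := by omega
    rw [e1] at h7 hinf
    have h8 : 10 * q * (2 * l + 1) + 10 * q = 20 * q * (l + 1) := by ring
    have h9 : (30 * q + 20) * (l + 1) = (q + 2) * (10 * (l + 1)) + 20 * q * (l + 1) := by ring
    have h10 : 0 < 10 * q := by omega
    omega

end

end Pool.Agent.U689.UB
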