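import Mathlib

/-!
# Homogenized polynomials and their differences
-/

set_option autoImplicit false

namespace Pool.Agent.U689.UB

open Polynomial Finset

variable {k : Type*} [Field k]

/-- the homogenization of `P` at `A, B` -/
noncomputable def hom (P A B : k[X]) : k[X] :=
  ∑ j ∈ range (P.natDegree + 1), C (P.coeff j) * A ^ j * B ^ (P.natDegree - j)

/-- the homogenization of the derivative -/
noncomputable def hom' (P A B : k[X]) : k[X] :=
  ∑ j ∈ range (P.natDegree + 1), C (P.coeff j) * (j : k[X]) * A ^ (j - 1) * B ^ (P.natDegree - j)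

/-- the homogenization of the difference quotient -/
noncomputable def quo (P A₁ A₂ B : k[X]) : k[X] :=
  ∑ j ∈ range (P.natDegree + 1), C (P.coeff j) * B ^ (P.natDegree - j) *
    ∑ i ∈ range j, A₁ ^ i * A₂ ^ (j - 1 - i)

theorem hom_sub (P A₁ A₂ B : k[X]) :
    hom P A₁ B - hom P A₂ B = (A₁ - A₂) * quo P A₁ A₂ B := by
  unfold hom quo
  rw [← Finset.sum_sub_distrib, Finset.mul_sum]
  refine Finset.sum_congr rfl fun j _ => ?_
  have h := geom_sum₂_mul A₁ A₂ j
  linear_combination (-(C (P.coeff j) * B ^ (P.natDegree - j))) * h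

theorem hom_derivative (P A B : k[X]) :
    derivative (hom P A B) * B - (P.natDegree : k[X]) * hom P A B * derivative B =
      hom' P A B * (derivative A * B - A * derivative B) := by
  unfold hom hom'
  rw [derivative_sum, Finset.sum_mul, Finset.mul_sum, Finset.sum_mul, Finset.sum_mul,
    ← Finset.sum_sub_distrib]
  refine Finset.sum_congr rfl fun j hj => ?_
  obtain ⟨i, hi⟩ : ∃ i, P.natDegree = j + i := ⟨P.natDegree - j, by rw [mem_range] at hj; omega⟩
  rw [hi, Nat.add_sub_cancel_left, derivative_mul, derivative_mul, derivative_C, derivative_pow,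
    derivative_pow]
  rcases j with _ | j
  · rcases i with _ | i
    · simp
    · simp only [Nat.add_sub_cancel, pow_zero, Nat.cast_zero, map_zero, zero_mul, mul_zero,
        zero_add, Nat.cast_add, Nat.cast_one, map_add, map_natCast, map_one, mul_one]
      ring
  · rcases i with _ | i
    · simp only [Nat.add_sub_cancel, pow_zero, Nat.cast_zero, map_zero, zero_mul, mul_zero,
        add_zero, Nat.cast_add, Nat.cast_one, map_add, map_natCast, map_one, mul_one]
      ring
    · simp only [Nat.add_sub_cancel, zero_mul, zero_add, Nat.cast_add, Nat.cast_one, map_add,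
        map_natCast, map_one]
      ring

section quotient

variable {F : Type*} [CommRing F] [IsDomain F] (ψ : k[X] →+* F)

theorem map_hom' (P A B : k[X]) (hB : ψ B = 0) :
    ψ (hom' P A B) = ψ (C P.leadingCoeff) * (P.natDegree : F) * ψ A ^ (P.natDegree - 1) := by
  unfold hom'
  rw [map_sum, Finset.sum_range_succ, Finset.sum_eq_zero, zero_add]
  · rw [map_mul, map_mul, map_mul, map_pow, map_natCast, Nat.sub_self, pow_zero, map_one, mul_one]
    rfl
  · intro j hj
    rw [mem_range] at hj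
    rw [map_mul, map_pow, hB, zero_pow (by omega), mul_zero]

theorem map_quo (P A₁ A₂ B : k[X]) (hB : ψ B = 0) :
    ψ (quo P A₁ A₂ B) = ψ (C P.leadingCoeff) *
      ∑ i ∈ range P.natDegree, ψ A₁ ^ i * ψ A₂ ^ (P.natDegree - 1 - i) := by
  unfold quo
  rw [map_sum, Finset.sum_range_succ, Finset.sum_eq_zero, zero_add]
  · rw [map_mul, map_mul, map_pow, map_sum, Nat.sub_self, pow_zero, mul_one]
    simp only [map_mul, map_pow]
    rfl
  · intro j hj
    rw [mem_range] at hj
    rw [map_mul, map_mul, map_pow, hB, zero_pow (by omega), mul_zero, zero_mul]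

/-- the two conditions exclude each other -/
theorem dich {m : ℕ} (hm : 1 ≤ m) (hmF : (m : F) ≠ 0) {a b : F} (hb : b ≠ 0)
    (h1 : ∑ i ∈ range m, a ^ i * b ^ (m - 1 - i) = 0) (h2 : a ^ (m - 1) = b ^ (m - 1)) : False := by
  have h3 := geom_sum₂_mul a b m
  rw [h1, zero_mul] at h3
  obtain ⟨l, rfl⟩ : ∃ l, m = l + 1 := ⟨m - 1, by omega⟩
  rw [Nat.add_sub_cancel] at h2
  have h4 : b ^ l * (a - b) = 0 := by
    rw [pow_succ, pow_succ, h2] at h3
    rw [mul_sub]
    exact h3.symm
  have h5 : a = b := by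
    rcases mul_eq_zero.1 h4 with h6 | h6
    · exact absurd h6 (pow_ne_zero _ hb)
    · exact sub_eq_zero.1 h6
  subst h5
  have h7 : ∑ i ∈ range (l + 1), a ^ i * a ^ (l + 1 - 1 - i) = (l + 1 : ℕ) * a ^ l := by
    rw [Finset.sum_congr rfl (g := fun _ => a ^ l), Finset.sum_const, card_range, nsmul_eq_mul]
    intro i hi
    rw [mem_range] at hi
    rw [← pow_add]
    congr 1
    omega
  rw [h7] at h1
  rcases mul_eq_zero.1 h1 with h8 | h8
  · exact hmF h8
  · exact pow_ne_zero _ hb h8

end quotient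

section prime

variable {P A₁ A₂ B π : k[X]}

theorem natCast_ne {F : Type*} [CommRing F] [IsDomain F] (ψ : k[X] →+* F) {m : ℕ}
    (hm : (m : k) ≠ 0) : (m : F) ≠ 0 := by
  have h : (m : F) = ψ (C (m : k)) := by rw [map_natCast, map_natCast]
  rw [h]
  intro h1
  exact hm ((RingHom.injective (ψ.comp C)) (by simpa using h1))

theorem const_ne {F : Type*} [CommRing F] [IsDomain F] (ψ : k[X] →+* F) {a : k} (ha : a ≠ 0) :
    ψ (C a) ≠ 0 := by
  intro h1
  exact ha ((RingHom.injective (ψ.comp C)) (by simpa using h1))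

theorem not_dvd_hom' (hπ : Prime π) (hB : π ∣ B) (hA : ¬ π ∣ A₁) (hm : (P.natDegree : k) ≠ 0) :
    ¬ π ∣ hom' P A₁ B := by
  have hprime : (Ideal.span {π}).IsPrime := (Ideal.span_singleton_prime hπ.ne_zero).2 hπ
  have hdom : IsDomain (k[X] ⧸ Ideal.span {π}) := Ideal.Quotient.isDomain _
  let ψ := Ideal.Quotient.mk (Ideal.span {π})
  have hψ : ∀ x, ψ x = 0 ↔ π ∣ x := fun x => by
    rw [Ideal.Quotient.eq_zero_iff_mem, Ideal.mem_span_singleton]
  rw [← hψ, map_hom' ψ P A₁ B ((hψ B).2 hB)]
  have hP : P ≠ 0 := by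
    rintro rfl
    simp at hm
  refine mul_ne_zero (mul_ne_zero ?_ ?_) (pow_ne_zero _ ?_)
  · exact const_ne ψ (leadingCoeff_ne_zero.2 hP)
  · exact natCast_ne ψ hm
  · rwa [Ne, hψ]

theorem dich_prime (hπ : Prime π) (hB : π ∣ B) (hA₂ : ¬ π ∣ A₂)
    (hm : (P.natDegree : k) ≠ 0) (h1 : π ∣ quo P A₁ A₂ B)
    (h2 : π ∣ hom' P A₁ B - hom' P A₂ B) : False := by
  have hprime : (Ideal.span {π}).IsPrime := (Ideal.span_singleton_prime hπ.ne_zero).2 hπ
  have hdom : IsDomain (k[X] ⧸ Ideal.span {π}) := Ideal.Quotient.isDomain _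
  let ψ := Ideal.Quotient.mk (Ideal.span {π})
  have hψ : ∀ x, ψ x = 0 ↔ π ∣ x := fun x => by
    rw [Ideal.Quotient.eq_zero_iff_mem, Ideal.mem_span_singleton]
  have hP : P ≠ 0 := by
    rintro rfl
    simp at hm
  have hm1 : 1 ≤ P.natDegree := by
    rw [Nat.one_le_iff_ne_zero]
    intro h
    rw [h] at hm
    simp at hm
  rw [← hψ, map_quo ψ P A₁ A₂ B ((hψ B).2 hB)] at h1
  rw [← hψ, map_sub, map_hom' ψ P A₁ B ((hψ B).2 hB), map_hom' ψ P A₂ B ((hψ B).2 hB)] at h2
  have hl := const_ne ψ (leadingCoeff_ne_zero.2 hP)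
  have hn := natCast_ne ψ hm
  refine dich hm1 hn (b := ψ A₂) (by rwa [Ne, hψ]) ((mul_eq_zero.1 h1).resolve_left hl) ?_
  rw [← mul_sub] at h2
  exact sub_eq_zero.1 ((mul_eq_zero.1 h2).resolve_left (mul_ne_zero hl hn))

end prime

section top

variable {P A₁ A₂ B : k[X]} {n : ℕ}

theorem hom'_top (hm : 1 ≤ P.natDegree) (hB : B.natDegree < n) (hA : A₁.natDegree ≤ n) :
    (hom' P A₁ B).coeff ((P.natDegree - 1) * n) =
      P.leadingCoeff * (P.natDegree : k) * A₁.coeff n ^ (P.natDegree - 1) := by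
  unfold hom'
  rw [finsetSum_coeff, Finset.sum_range_succ, Finset.sum_eq_zero, zero_add]
  · rw [Nat.sub_self, pow_zero, mul_one, ← C_eq_natCast, ← C_mul, coeff_C_mul,
      coeff_pow_of_natDegree_le hA]
    rfl
  · intro j hj
    rw [mem_range] at hj
    rcases j with _ | j
    · simp
    · rw [← C_eq_natCast, ← C_mul, mul_assoc, coeff_C_mul]
      refine mul_eq_zero_of_right _ (coeff_eq_zero_of_natDegree_lt ?_)
      refine natDegree_mul_le.trans_lt ?_
      have h1 : (A₁ ^ (j + 1 - 1)).natDegree ≤ j * n :=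
        natDegree_pow_le.trans (Nat.mul_le_mul le_rfl hA)
      have h2 : (B ^ (P.natDegree - (j + 1))).natDegree ≤ (P.natDegree - (j + 1)) * B.natDegree :=
        natDegree_pow_le
      have h3 : (P.natDegree - (j + 1)) * B.natDegree < (P.natDegree - (j + 1)) * n :=
        Nat.mul_lt_mul_of_pos_left hB (by omega)
      have h4 : (P.natDegree - 1) * n = j * n + (P.natDegree - (j + 1)) * n := by
        rw [← add_mul]
        congr 1
        omega
      omega

theorem quo_top (hB : B.natDegree < n) (hA₁ : A₁.natDegree ≤ n) (hA₂ : A₂.natDegree ≤ n) :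
    (quo P A₁ A₂ B).coeff ((P.natDegree - 1) * n) =
      P.leadingCoeff * ∑ i ∈ range P.natDegree,
        A₁.coeff n ^ i * A₂.coeff n ^ (P.natDegree - 1 - i) := by
  unfold quo
  rw [finsetSum_coeff, Finset.sum_range_succ, Finset.sum_eq_zero, zero_add]
  · rw [Nat.sub_self, pow_zero, mul_one, coeff_C_mul, finsetSum_coeff]
    congr 1
    refine Finset.sum_congr rfl fun i hi => ?_
    rw [mem_range] at hi
    have h4 : (P.natDegree - 1) * n = i * n + (P.natDegree - 1 - i) * n := by
      rw [← add_mul]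
      congr 1
      omega
    rw [h4, coeff_mul_add_eq_of_natDegree_le (natDegree_pow_le.trans (Nat.mul_le_mul le_rfl hA₁))
      (natDegree_pow_le.trans (Nat.mul_le_mul le_rfl hA₂)), coeff_pow_of_natDegree_le hA₁,
      coeff_pow_of_natDegree_le hA₂]
  · intro j hj
    rw [mem_range] at hj
    rcases j with _ | j
    · simp
    · rw [mul_assoc, coeff_C_mul, Finset.mul_sum, finsetSum_coeff, Finset.sum_eq_zero, mul_zero]
      intro i hi
      rw [mem_range] at hi
      apply coeff_eq_zero_of_natDegree_lt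
      refine natDegree_mul_le.trans_lt ?_
      have h0 := natDegree_mul_le (p := A₁ ^ i) (q := A₂ ^ (j + 1 - 1 - i))
      have h1 : (A₁ ^ i).natDegree ≤ i * n := natDegree_pow_le.trans (Nat.mul_le_mul le_rfl hA₁)
      have h1' : (A₂ ^ (j + 1 - 1 - i)).natDegree ≤ (j - i) * n :=
        natDegree_pow_le.trans (Nat.mul_le_mul le_rfl hA₂)
      have h2 : (B ^ (P.natDegree - (j + 1))).natDegree ≤ (P.natDegree - (j + 1)) * B.natDegree :=
        natDegree_pow_le
      have h3 : (P.natDegree - (j + 1)) * B.natDegree < (P.natDegree - (j + 1)) * n :=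
        Nat.mul_lt_mul_of_pos_left hB (by omega)
      have h4 : (P.natDegree - 1) * n = i * n + (j - i) * n + (P.natDegree - (j + 1)) * n := by
        rw [← add_mul, ← add_mul]
        congr 1
        omega
      omega

end top

end Pool.Agent.U689.UB
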