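import Pool.Agent.U689.UB.Core

/-!
# The induction over the inseparable degree of the parameter
-/

set_option autoImplicit false

namespace Pool.Agent.U689.UB

open Polynomial Finset

variable {k : Type*} [Field k]

theorem hom_expand (p : ℕ) (P A B : k[X]) :
    hom P (expand k p A) (expand k p B) = expand k p (hom P A B) := by
  unfold hom
  rw [map_sum]
  refine Finset.sum_congr rfl fun j _ => ?_
  rw [map_mul, map_mul, map_pow, map_pow, expand_C]

theorem expand_dvd_expand {p : ℕ} {z A : k[X]} (h : z ∣ A) : expand k p z ∣ expand k p A := by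
  obtain ⟨w, rfl⟩ := h
  exact ⟨expand k p w, map_mul _ _ _⟩

theorem coprime_of_expand {p : ℕ} (hp : 0 < p) {A B : k[X]} (hB : B ≠ 0)
    (h : IsCoprime (expand k p A) (expand k p B)) : IsCoprime A B := by
  apply isCoprime_of_irreducible_dvd
  · rintro ⟨-, h1⟩
    exact hB h1
  · intro z hz h1 h2
    have h3 : IsUnit (expand k p z) :=
      h.isUnit_of_dvd' (expand_dvd_expand h1) (expand_dvd_expand h2)
    have h4 := natDegree_eq_zero_of_isUnit h3
    rw [natDegree_expand] at h4
    have h5 : z.natDegree = 0 := by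
      rcases Nat.mul_eq_zero.1 h4 with h | h
      · exact h
      · omega
    apply hz.not_isUnit
    rw [isUnit_iff_degree_eq_zero, degree_eq_natDegree hz.ne_zero, h5]
    rfl

theorem derivative_eq_zero_of_dvd {B : k[X]} (h : B ∣ derivative B) : derivative B = 0 := by
  rcases Nat.eq_zero_or_pos B.natDegree with h0 | h0
  · exact derivative_of_natDegree_zero h0
  · exact eq_zero_of_dvd_of_natDegree_lt h (natDegree_derivative_lt (by omega))

theorem derivs_zero {A B : k[X]} (hB : B ≠ 0) (hc : IsCoprime A B)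
    (h : derivative A * B - A * derivative B = 0) : derivative A = 0 ∧ derivative B = 0 := by
  have h1 : derivative A * B = A * derivative B := sub_eq_zero.1 h
  have h2 : B ∣ A * derivative B := ⟨derivative A, by rw [← h1, mul_comm]⟩
  have h3 := derivative_eq_zero_of_dvd (hc.symm.dvd_of_dvd_mul_left h2)
  rw [h3, mul_zero] at h1
  exact ⟨(mul_eq_zero.1 h1).resolve_right hB, h3⟩

theorem main_poly (p : ℕ) [hpp : Fact p.Prime] [CharP k p] (P : k[X]) {m : ℕ} (hm : P.natDegree = m)
    (hm3 : 3 ≤ m) (hmk : (m : k) ≠ 0) (e : ℕ) (he : 1 ≤ e) (n : ℕ) :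
    ∀ (B C : k[X]) (S : Set k[X]) (nx : k[X] → k[X]), 1 ≤ n → B ≠ 0 → (∀ A ∈ S, IsCoprime A B) →
      (∀ A ∈ S, nx A ∈ S) →
      (∀ A ∈ S, nx A * B ^ (p ^ e * m - 1) = hom P A B ^ (p ^ e) + C) →
      ((B.natDegree = n ∧ ∀ A ∈ S, A.natDegree ≤ n) ∨
        (B.natDegree < n ∧ ∀ A ∈ S, A.natDegree = n)) →
      ∀ A₁ ∈ S, ∀ A₂ ∈ S, nx A₁ = nx A₂ := by
  induction n using Nat.strong_induction_on with
  | _ n ih =>
  intro B C S nx hn hB hcop hmaps hrel hdeg A₁ hA₁ A₂ hA₂
  have hp2 : 2 ≤ p := hpp.out.two_le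
  have hq : 2 ≤ p ^ e := hp2.trans (Nat.le_self_pow (by omega) p)
  have hd : 6 ≤ p ^ e * m := by nlinarith
  obtain ⟨d, hdd⟩ : ∃ d, p ^ e * m = d + 2 := ⟨p ^ e * m - 2, by omega⟩
  have hq0 : ((p ^ e : ℕ) : k) = 0 := by
    rw [Nat.cast_pow, CharP.cast_eq_zero, zero_pow (by omega)]
  have hd0 : ((d + 2 : ℕ) : k) = 0 := by
    rw [← hdd, Nat.cast_mul, hq0, zero_mul]
  have hsub : ∀ A ∈ S, ∀ A' ∈ S, (nx A - nx A') * B ^ (p ^ e * m - 1) =
      (hom P A B - hom P A' B) ^ (p ^ e) := by
    intro A hA A' hA'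
    rw [sub_mul, hrel A hA, hrel A' hA', sub_pow_char_pow]
    ring
  have hder : ∀ A ∈ S, (derivative (nx A) * B - nx A * derivative B) * B ^ d = derivative C := by
    intro A hA
    have h1 := congrArg derivative (hrel A hA)
    rw [derivative_add, derivative_pow, hq0, map_zero, zero_mul, zero_mul, zero_add, hdd,
      derivative_mul, derivative_pow] at h1
    have h2 : d + 2 - 1 = d + 1 := by omega
    have h3 : Polynomial.C ((d + 1 : ℕ) : k) = -1 := by
      have h4 : ((d + 1 : ℕ) : k) = -1 := by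
        have h5 : ((d + 2 : ℕ) : k) = ((d + 1 : ℕ) : k) + 1 := by push_cast; ring
        rw [h5] at hd0
        exact eq_neg_of_add_eq_zero_left hd0
      rw [h4, map_neg, map_one]
    rw [h2, h3, Nat.add_sub_cancel] at h1
    rw [← h1, pow_succ]
    ring
  by_cases hC : derivative C = 0
  · -- all derivatives vanish
    have hD1 : ∀ A ∈ S, derivative (nx A) * B - nx A * derivative B = 0 := by
      intro A hA
      have h1 := hder A hA
      rw [hC] at h1
      exact (mul_eq_zero.1 h1).resolve_right (pow_ne_zero _ hB)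
    have hD2 : ∀ A ∈ S, derivative A * B - A * derivative B = 0 := by
      intro A hA
      refine caseTwo (P := P) (X₂ := nx A) (W := nx A - nx (nx A)) (n := n) (q := p ^ e) hm hm3 hmk
        hq hB (hcop A hA) hn ?_ ?_ (hsub A hA _ (hmaps A hA)) (hD1 A hA)
      · rcases hdeg with ⟨h1, h2⟩ | ⟨h1, h2⟩
        · exact Or.inl ⟨h1, h2 A hA⟩
        · exact Or.inr ⟨h1, h2 A hA⟩
      · refine (natDegree_sub_le _ _).trans (max_le ?_ ?_)
        · rcases hdeg with ⟨h1, h2⟩ | ⟨h1, h2⟩
          · exact h2 _ (hmaps A hA)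
          · exact (h2 _ (hmaps A hA)).le
        · rcases hdeg with ⟨h1, h2⟩ | ⟨h1, h2⟩
          · exact h2 _ (hmaps _ (hmaps A hA))
          · exact (h2 _ (hmaps _ (hmaps A hA))).le
    have hA0 : ∀ A ∈ S, derivative A = 0 := fun A hA =>
      (derivs_zero hB (hcop A hA) (hD2 A hA)).1
    have hB0 : derivative B = 0 := (derivs_zero hB (hcop A₁ hA₁) (hD2 A₁ hA₁)).2
    have hp0 : p ≠ 0 := by omega
    have ex : ∀ A : k[X], derivative A = 0 → expand k p (contract p A) = A := fun A hA =>
      expand_contract p hA hp0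
    have hinj : Function.Injective (expand k p) := expand_injective (by omega)
    obtain ⟨n₁, hn₁⟩ : ∃ n₁, n = n₁ * p := by
      rcases hdeg with ⟨h1, -⟩ | ⟨-, h2⟩
      · refine ⟨(contract p B).natDegree, ?_⟩
        rw [← natDegree_expand, ex B hB0, h1]
      · refine ⟨(contract p A₁).natDegree, ?_⟩
        rw [← natDegree_expand, ex A₁ (hA0 A₁ hA₁), h2 A₁ hA₁]
    have hn1 : 1 ≤ n₁ := by
      rw [Nat.one_le_iff_ne_zero]
      rintro rfl
      omega
    have hlt : n₁ < n := by nlinarith
    have hnx : ∀ A, expand k p A ∈ S →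
        expand k p (contract p (nx (expand k p A))) = nx (expand k p A) := fun A hA =>
      ex _ (hA0 _ (hmaps _ hA))
    have key := ih n₁ hlt (contract p B) (contract p C) {A | expand k p A ∈ S}
      (fun A => contract p (nx (expand k p A))) hn1 ?_ ?_ ?_ ?_ ?_ (contract p A₁) ?_
      (contract p A₂) ?_
    · have h1 := congrArg (expand k p) key
      rw [ex A₁ (hA0 A₁ hA₁), ex A₂ (hA0 A₂ hA₂), ex _ (hA0 _ (hmaps _ hA₁)),
        ex _ (hA0 _ (hmaps _ hA₂))] at h1
      exact h1
    · intro h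
      apply hB
      rw [← ex B hB0, h, map_zero]
    · intro A hA
      refine coprime_of_expand (p := p) (by omega) ?_ ?_
      · intro h
        apply hB
        rw [← ex B hB0, h, map_zero]
      · rw [ex B hB0]
        exact hcop _ hA
    · intro A hA
      show expand k p (contract p (nx (expand k p A))) ∈ S
      rw [hnx A hA]
      exact hmaps _ hA
    · intro A hA
      apply hinj
      rw [map_mul, map_add, map_pow, map_pow, ex B hB0, ex C hC, ← hom_expand, ex B hB0,
        hnx A hA]
      exact hrel _ hA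
    · rcases hdeg with ⟨h1, h2⟩ | ⟨h1, h2⟩
      · left
        constructor
        · have h3 : (contract p B).natDegree * p = n₁ * p := by
            rw [← natDegree_expand, ex B hB0, h1, hn₁]
          exact Nat.eq_of_mul_eq_mul_right (by omega) h3
        · intro A hA
          have h3 := h2 _ hA
          rw [natDegree_expand, hn₁] at h3
          exact Nat.le_of_mul_le_mul_right h3 (by omega)
      · right
        constructor
        · have h3 : (contract p B).natDegree * p < n₁ * p := by
            rw [← natDegree_expand, ex B hB0, ← hn₁]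
            exact h1
          exact Nat.lt_of_mul_lt_mul_right h3
        · intro A hA
          have h3 := h2 _ hA
          rw [natDegree_expand, hn₁] at h3
          exact Nat.eq_of_mul_eq_mul_right (by omega) h3
    · show expand k p (contract p A₁) ∈ S
      rwa [ex A₁ (hA0 A₁ hA₁)]
    · show expand k p (contract p A₂) ∈ S
      rwa [ex A₂ (hA0 A₂ hA₂)]
  · by_contra hne
    have hS1 := hmaps _ hA₁
    have hS2 := hmaps _ hA₂
    have e1 := hder A₁ hA₁
    have e2 := hder A₂ hA₂
    refine caseOne (P := P) (X₁ := nx A₁) (X₂ := nx A₂) (W := nx (nx A₁) - nx (nx A₂)) (n := n)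
      (q := p ^ e) hm hm3 hmk hq hB (hcop _ hS1) (hcop _ hS2) hn ?_ ?_
      (hsub _ hS1 _ hS2) ?_ ?_ hne
    · rcases hdeg with ⟨h1, h2⟩ | ⟨h1, h2⟩
      · exact Or.inl ⟨h1, h2 _ hS1, h2 _ hS2⟩
      · exact Or.inr ⟨h1, h2 _ hS1, h2 _ hS2⟩
    · refine (natDegree_sub_le _ _).trans (max_le ?_ ?_)
      · rcases hdeg with ⟨h1, h2⟩ | ⟨h1, h2⟩
        · exact h2 _ (hmaps _ hS1)
        · exact (h2 _ (hmaps _ hS1)).le
      · rcases hdeg with ⟨h1, h2⟩ | ⟨h1, h2⟩
        · exact h2 _ (hmaps _ hS2)
        · exact (h2 _ (hmaps _ hS2)).le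
    · exact mul_right_cancel₀ (pow_ne_zero d hB) (e1.trans e2.symm)
    · intro h
      rw [h, zero_mul] at e1
      exact hC e1.symm

end Pool.Agent.U689.UB
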