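import Mathlib

/-!
# The local inequalities for five points
-/

set_option autoImplicit false

namespace Pool.Agent.U689.UB

open Finset

/-- the pairs `i < j` -/
def prs : Finset (Fin 5 × Fin 5) := univ.filter fun x => x.1 < x.2

theorem card_prs : prs.card = 10 := by decide

theorem card_same (c : Fin 5 → Bool) : 4 ≤ (prs.filter fun x => c x.1 = c x.2).card := by
  revert c
  decide

theorem num_same {q ν d : ℕ} (hq : 3 ≤ q) (hν : 1 ≤ ν) (h1 : (q * 2 - 1) * ν ≤ q * d)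
    (h2 : ∃ z : ℕ, d + (q * 2 - 1) * ν = q * z) : (2 * q + 2) * ν + q ≤ (q + 2) * d := by
  obtain ⟨r, rfl⟩ : ∃ r, q = r + 3 := ⟨q - 3, by omega⟩
  have e : (r + 3) * 2 - 1 = 2 * r + 5 := by omega
  rw [e] at h1 h2
  obtain ⟨z, hz⟩ := h2
  have hd : ν < d := by
    by_contra hcon
    have : (r + 3) * d ≤ (r + 3) * ν := Nat.mul_le_mul_left _ (by omega)
    nlinarith
  obtain ⟨τ, hτ⟩ : ∃ τ, z = 2 * ν + τ := by
    refine ⟨z - 2 * ν, ?_⟩
    have : 2 * ν ≤ z := by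
      by_contra hcon
      have h3 : (r + 3) * (z + 1) ≤ (r + 3) * (2 * ν) := Nat.mul_le_mul_left _ (by omega)
      nlinarith
    omega
  subst hτ
  have hdv : d = ν + (r + 3) * τ := by nlinarith
  have hτ1 : 1 ≤ τ := by
    rcases Nat.eq_zero_or_pos τ with h | h
    · rw [h] at hdv
      omega
    · exact h
  subst hdv
  have h4 : ν + 1 ≤ (r + 5) * τ := by
    by_contra hcon
    have h5 : (r + 5) * τ ≤ ν := by omega
    have h6 : (r + 2) * ((r + 5) * τ) ≤ (r + 2) * ν := Nat.mul_le_mul_left _ h5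
    nlinarith
  nlinarith

theorem num_mix {q μ δ : ℕ} (hq : 3 ≤ q) (hμ : 1 ≤ μ) (h : (q * 2 - 1) * μ ≤ q * δ) :
    15 * μ + 5 ≤ 2 * ((q + 2) * δ) := by
  rcases Nat.lt_or_ge q 4 with h4 | h4
  · obtain rfl : q = 3 := by omega
    omega
  · obtain ⟨r, rfl⟩ : ∃ r, q = r + 4 := ⟨q - 4, by omega⟩
    have e : (r + 4) * 2 - 1 = 2 * r + 7 := by omega
    rw [e] at h
    by_contra hcon
    have h5 : (r + 4) * (2 * ((r + 4 + 2) * δ)) + (r + 4) ≤ (r + 4) * (15 * μ + 5) := by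
      have := Nat.mul_le_mul_left (r + 4) (show 2 * ((r + 4 + 2) * δ) + 1 ≤ 15 * μ + 5 by omega)
      linarith
    have h6 : (2 * (r + 4 + 2)) * ((2 * r + 7) * μ) ≤ (2 * (r + 4 + 2)) * ((r + 4) * δ) :=
      Nat.mul_le_mul_left _ h
    have h7 : (4 * r * r + 23 * r + 24) * 1 ≤ (4 * r * r + 23 * r + 24) * μ :=
      Nat.mul_le_mul_left _ hμ
    nlinarith

/-- the local inequality -/
theorem loc {q ν w : ℕ} (hq : 3 ≤ q) (hν : 1 ≤ ν) (d : Fin 5 × Fin 5 → ℕ) (c : Fin 5 → Bool)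
    (ha : ∀ x ∈ prs, c x.1 = c x.2 → (q * 2 - 1) * ν ≤ q * d x)
    (hb : ∀ x ∈ prs, ∃ z : ℕ, d x + (q * 2 - 1) * ν = q * z)
    (hc : ∀ x ∈ prs, c x.1 ≠ c x.2 → d x = 0 ∧ (q * 3 - 1) * ν ≤ q * (w + 1))
    (hd : ν ≤ w + 1) :
    (30 * q + 20) * ν ≤ (q + 2) * ∑ x ∈ prs, d x + 10 * q * w := by
  by_cases hall : ∀ x ∈ prs, c x.1 = c x.2
  · have h1 : ∑ x ∈ prs, ((2 * q + 2) * ν + q) ≤ ∑ x ∈ prs, (q + 2) * d x :=
      Finset.sum_le_sum fun x hx => num_same hq hν (ha x hx (hall x hx)) (hb x hx)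
    rw [Finset.sum_const, card_prs, smul_eq_mul, ← Finset.mul_sum] at h1
    have h2 : 10 * q * ν ≤ 10 * q * (w + 1) := Nat.mul_le_mul_left _ hd
    nlinarith
  · push Not at hall
    obtain ⟨x₀, hx₀, hne⟩ := hall
    obtain ⟨h1, h2⟩ := hc x₀ hx₀ hne
    obtain ⟨z, hz⟩ := hb x₀ hx₀
    obtain ⟨μ, rfl⟩ : ∃ μ, ν = q * μ := by
      refine ⟨2 * ν - z, ?_⟩
      rw [h1, zero_add] at hz
      have h3 : (q * 2 - 1) * ν + ν = q * (2 * ν) := by
        have : (q * 2 - 1) * ν + ν = (q * 2 - 1 + 1) * ν := by ring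
        rw [this, Nat.sub_add_cancel (by omega)]
        ring
      rw [Nat.mul_sub, ← hz]
      omega
    have hμ : 1 ≤ μ := by
      rcases Nat.eq_zero_or_pos μ with h | h
      · rw [h] at hν
        omega
      · exact h
    have hq0 : 0 < q := by omega
    have hpair : ∀ x ∈ prs.filter (fun x => c x.1 = c x.2),
        q * (15 * μ + 5) ≤ 2 * ((q + 2) * d x) := by
      intro x hx
      rw [Finset.mem_filter] at hx
      obtain ⟨z, hz⟩ := hb x hx.1
      have h3 := ha x hx.1 hx.2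
      obtain ⟨δ, hδ⟩ : ∃ δ, d x = q * δ := by
        refine ⟨z - (q * 2 - 1) * μ, ?_⟩
        rw [Nat.mul_sub, ← hz]
        have : (q * 2 - 1) * (q * μ) = q * ((q * 2 - 1) * μ) := by ring
        omega
      rw [hδ] at h3 ⊢
      have h4 : (q * 2 - 1) * μ ≤ q * δ := by
        have h5 : q * ((q * 2 - 1) * μ) ≤ q * (q * δ) := by
          calc q * ((q * 2 - 1) * μ) = (q * 2 - 1) * (q * μ) := by ring
            _ ≤ _ := h3
        exact Nat.le_of_mul_le_mul_left h5 hq0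
      have h6 := Nat.mul_le_mul_left q (num_mix hq hμ h4)
      calc q * (15 * μ + 5) ≤ q * (2 * ((q + 2) * δ)) := h6
        _ = 2 * ((q + 2) * (q * δ)) := by ring
    have hsum : 4 * (q * (15 * μ + 5)) ≤ 2 * ((q + 2) * ∑ x ∈ prs, d x) := by
      calc 4 * (q * (15 * μ + 5))
          ≤ (prs.filter fun x => c x.1 = c x.2).card * (q * (15 * μ + 5)) :=
            Nat.mul_le_mul_right _ (card_same c)
        _ = ∑ _x ∈ prs.filter (fun x => c x.1 = c x.2), q * (15 * μ + 5) := by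
            rw [Finset.sum_const, smul_eq_mul]
        _ ≤ ∑ x ∈ prs.filter (fun x => c x.1 = c x.2), 2 * ((q + 2) * d x) :=
            Finset.sum_le_sum hpair
        _ ≤ ∑ x ∈ prs, 2 * ((q + 2) * d x) :=
            Finset.sum_le_sum_of_subset (Finset.filter_subset _ _)
        _ = 2 * ((q + 2) * ∑ x ∈ prs, d x) := by
            rw [Finset.mul_sum, Finset.mul_sum]
    have hw : (q * 3 - 1) * μ ≤ w + 1 := by
      have h5 : q * ((q * 3 - 1) * μ) ≤ q * (w + 1) := by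
        calc q * ((q * 3 - 1) * μ) = (q * 3 - 1) * (q * μ) := by ring
          _ ≤ _ := h2
      exact Nat.le_of_mul_le_mul_left h5 hq0
    have hw2 : 10 * q * ((q * 3 - 1) * μ) ≤ 10 * q * (w + 1) := Nat.mul_le_mul_left _ hw
    obtain ⟨r, hr⟩ : ∃ r, q * 3 = r + 1 := ⟨q * 3 - 1, by omega⟩
    rw [hr, Nat.add_sub_cancel] at hw2
    have hr2 : r * (q * μ) + q * μ = q * 3 * (q * μ) := by
      rw [hr]
      ring
    nlinarith

end Pool.Agent.U689.UB
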