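import Mathlib

/-!
# Valuations of preperiodic points
-/

set_option autoImplicit false

namespace Pool.Agent.U689.UB

open Polynomial Finset

/-- a point with finite forward orbit -/
def Pre {T : Type*} (f : T → T) (x : T) : Prop := (Set.range fun j : ℕ => f^[j] x).Finite

theorem Pre.next {T : Type*} {f : T → T} {x : T} (h : Pre f x) : Pre f (f x) := by
  refine Set.Finite.subset h ?_
  rintro _ ⟨j, rfl⟩
  exact ⟨j + 1, Function.iterate_succ_apply f j x⟩

theorem esc {T Γ : Type*} [Preorder Γ] {f : T → T} (v : T → Γ) {R : T → Prop}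
    (hR : ∀ y, R y → R (f y) ∧ v y < v (f y)) {x : T} (hx : R x) : ¬ Pre f x := by
  intro h
  have h1 : ∀ j, R (f^[j] x) := by
    intro j
    induction j with
    | zero => exact hx
    | succ j ih =>
      rw [Function.iterate_succ_apply']
      exact (hR _ ih).1
  have h2 : StrictMono fun j : ℕ => v (f^[j] x) := by
    refine strictMono_nat_of_lt_succ fun j => ?_
    rw [Function.iterate_succ_apply']
    exact (hR _ (h1 j)).2
  have h3 : Function.Injective fun j : ℕ => f^[j] x := by
    intro i j hij
    exact h2.injective (congrArg v hij)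
  exact Set.infinite_range_of_injective h3 h

section val

variable {k K Γ : Type*} [Field k] [Field K] [Algebra k K] [LinearOrderedCommGroupWithZero Γ]
  (v : Valuation K Γ) (hk : ∀ a : k, a ≠ 0 → v (algebraMap k K a) = 1)

include hk

theorem val_const_le (a : k) : v (algebraMap k K a) ≤ 1 := by
  by_cases ha : a = 0
  · rw [ha, map_zero, map_zero]
    exact zero_le
  · rw [hk a ha]

theorem val_aeval_le (P : k[X]) {x : K} (hx : v x ≤ 1) : v (aeval x P) ≤ 1 := by
  rw [aeval_eq_sum_range]
  refine v.map_sum_le fun i _ => ?_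
  rw [Algebra.smul_def, map_mul, map_pow]
  exact mul_le_one' (val_const_le v hk _) (pow_le_one' hx _)

theorem val_aeval_gt {P : k[X]} (hP : P ≠ 0) {x : K} (hx : 1 < v x) :
    v (aeval x P) = v x ^ P.natDegree := by
  rw [aeval_eq_sum_range, Finset.sum_range_succ]
  have h1 : v (P.coeff P.natDegree • x ^ P.natDegree) = v x ^ P.natDegree := by
    rw [Algebra.smul_def, map_mul, map_pow, hk (P.coeff P.natDegree) (leadingCoeff_ne_zero.2 hP), one_mul]
  have hx0 : v x ≠ 0 := (zero_lt_one.trans hx).ne'
  have h2 : v (∑ i ∈ range P.natDegree, P.coeff i • x ^ i) < v x ^ P.natDegree := by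
    refine v.map_sum_lt (pow_ne_zero _ hx0) fun i hi => ?_
    rw [mem_range] at hi
    rw [Algebra.smul_def, map_mul, map_pow]
    calc v (algebraMap k K (P.coeff i)) * v x ^ i ≤ 1 * v x ^ i :=
          mul_le_mul_left (val_const_le v hk _) _
      _ = v x ^ i := one_mul _
      _ < v x ^ P.natDegree := pow_lt_pow_right₀ hx hi
  rw [Valuation.map_add_eq_of_lt_right v (by rw [h1]; exact h2), h1]

theorem pre_val {P : k[X]} {q : ℕ} (hd : 2 ≤ q * P.natDegree) {c x : K}
    (hx : Pre (fun z : K => aeval z P ^ q + c) x) :
    (v c ≤ 1 → v x ≤ 1) ∧ (1 < v c → v x ^ (q * P.natDegree) = v c) := by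
  set d := q * P.natDegree with hdd
  set f : K → K := fun z : K => aeval z P ^ q + c with hf
  have hP : P ≠ 0 := by
    rintro rfl
    rw [natDegree_zero, mul_zero] at hdd
    omega
  have big : ∀ {y : K}, 1 < v y → v (aeval y P ^ q) = v y ^ d := by
    intro y hy
    rw [map_pow, val_aeval_gt v hk hP hy, ← pow_mul, mul_comm, hdd]
  have small : ∀ {y : K}, v y ≤ 1 → v (aeval y P ^ q) ≤ 1 := by
    intro y hy
    rw [map_pow]
    exact pow_le_one' (val_aeval_le v hk P hy) _
  constructor
  · intro hc
    by_contra hcon
    rw [not_le] at hcon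
    refine esc v (R := fun y => 1 < v y) ?_ hcon hx
    intro y hy
    have h1 : v y < v y ^ d := by
      calc v y = v y ^ 1 := (pow_one _).symm
        _ < v y ^ d := pow_lt_pow_right₀ hy (by omega)
    have h2 : v (f y) = v y ^ d := by
      rw [hf]
      simp only
      rw [Valuation.map_add_eq_of_lt_left v, big hy]
      rw [big hy]
      exact hc.trans_lt (hy.trans h1)
    rw [h2]
    exact ⟨hy.trans h1, h1⟩
  · intro hc
    have hle : ∀ {y : K}, Pre f y → v y ^ d ≤ v c := by
      intro y hy
      by_contra hcon
      rw [not_le] at hcon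
      refine esc v (R := fun y => v c < v y ^ d) ?_ hcon hy
      intro y hy
      have h0 : 1 < v y := by
        by_contra h
        rw [not_lt] at h
        exact absurd (hy.trans_le (pow_le_one' h _)) (not_lt.2 hc.le)
      have h1 : v y < v y ^ d := by
        calc v y = v y ^ 1 := (pow_one _).symm
          _ < v y ^ d := pow_lt_pow_right₀ h0 (by omega)
      have h2 : v (f y) = v y ^ d := by
        rw [hf]
        simp only
        rw [Valuation.map_add_eq_of_lt_left v, big h0]
        rw [big h0]
        exact hy
      rw [h2]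
      refine ⟨?_, h1⟩
      have h3 : 1 < v y ^ d := hc.trans hy
      calc v c < v y ^ d := hy
        _ = (v y ^ d) ^ 1 := (pow_one _).symm
        _ < (v y ^ d) ^ d := pow_lt_pow_right₀ h3 (by omega)
    refine le_antisymm (hle hx) ?_
    by_contra hcon
    rw [not_le] at hcon
    have h1 : v (aeval x P ^ q) < v c := by
      rcases le_or_gt (v x) 1 with h | h
      · exact (small h).trans_lt hc
      · rw [big h]
        exact hcon
    have h2 : v (f x) = v c := by
      rw [hf]
      simp only
      rw [Valuation.map_add_eq_of_lt_right v h1]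
    have h3 := hle hx.next
    rw [h2] at h3
    have h4 : v c < v c ^ d := by
      calc v c = v c ^ 1 := (pow_one _).symm
        _ < v c ^ d := pow_lt_pow_right₀ hc (by omega)
    exact absurd h3 (not_le.2 h4)

end val

end Pool.Agent.U689.UB
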