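import Pool.Agent.U689.UB.Ind
import Pool.Agent.U689.UB.Five

/-!
# Degree two: the induction
-/

set_option autoImplicit false

namespace Pool.Agent.U689.UB

open Polynomial Finset UniqueFactorizationMonoid

variable {k : Type*} [Field k]

theorem num0' {q m a j : ℕ} (hq : 2 ≤ q) (hm : 2 ≤ m) (ha : 1 ≤ a) (h : (q * m - 1) * a ≤ q * j) :
    2 * a ≤ j + a - 1 := by
  obtain ⟨s, hs⟩ : ∃ s, q * m = s + 1 := ⟨q * m - 1, by
    have : 1 ≤ q * m := Nat.mul_pos (by omega) (by omega)
    omega⟩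
  rw [hs, Nat.add_sub_cancel] at h
  have h1 : q * 2 ≤ q * m := Nat.mul_le_mul_left q hm
  by_contra hcon
  have h2 : j ≤ a := by omega
  have h3 : q * j ≤ q * a := Nat.mul_le_mul_left q h2
  have h4 : (q * 2) * a ≤ (s + 1) * a := Nat.mul_le_mul_right a (by omega)
  nlinarith

theorem num' {q m n b u S : ℕ} (hq : 1 ≤ q) (hm : 2 ≤ m) (hn : 1 ≤ n)
    (h1 : 2 * b ≤ S)
    (h2 : (b = n ∧ S ≤ 2 * n - 1) ∨
      (b < n ∧ S + (m - 1) * n ≤ u + b - 1 ∧ q * u ≤ n + (q * m - 1) * b)) : False := by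
  rcases h2 with ⟨rfl, h2⟩ | ⟨hb, h2, h3⟩
  · omega
  · obtain ⟨a, rfl⟩ : ∃ l, n = b + l := ⟨n - b, by omega⟩
    obtain ⟨m, rfl⟩ : ∃ l, m = l + 2 := ⟨m - 2, by omega⟩
    obtain ⟨s, hs⟩ : ∃ s, q * (m + 2) = s + 1 := ⟨q * (m + 2) - 1, by
      have : 1 ≤ q * (m + 2) := Nat.mul_pos (by omega) (by omega)
      omega⟩
    rw [hs, Nat.add_sub_cancel] at h3
    have e : m + 2 - 1 = m + 1 := by omega
    rw [e] at h2
    have h4 : 1 * 1 ≤ (m + 1) * (b + a) := Nat.mul_le_mul (by omega) hn
    have h5 : 2 * b + (m + 1) * (b + a) + 1 ≤ u + b := by omega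
    have h6 := Nat.mul_le_mul_left q h5
    have h7 : (s + 1) * b = q * (m + 2) * b := by rw [hs]
    have h8 : a ≤ q * a := Nat.le_mul_of_pos_left a hq
    nlinarith [Nat.zero_le (q * m * a), Nat.zero_le (q * m * b)]

section cases

variable {P B X₁ X₂ W : k[X]} {m n q : ℕ}

/-- an element next to one with zero derivative -/
theorem caseTwo' (hm : P.natDegree = m) (hm3 : 2 ≤ m) (hmk : (m : k) ≠ 0) (hq : 2 ≤ q) (hB : B ≠ 0)
    (c₁ : IsCoprime X₁ B) (hn : 1 ≤ n)
    (hdeg : (B.natDegree = n ∧ X₁.natDegree ≤ n) ∨ (B.natDegree < n ∧ X₁.natDegree = n))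
    (hW : W.natDegree ≤ n) (hrel : W * B ^ (q * m - 1) = (hom P X₁ B - hom P X₂ B) ^ q)
    (hD2 : derivative X₂ * B - X₂ * derivative B = 0) :
    derivative X₁ * B - X₁ * derivative B = 0 := by
  by_contra hD0
  set U := hom P X₁ B - hom P X₂ B with hUd
  set D := derivative X₁ * B - X₁ * derivative B with hDd
  set R := hom' P X₁ B with hRd
  have hRD : R * D = derivative U * B - (m : k[X]) * U * derivative B := by
    have h1 := hom_derivative P X₁ B
    have h2 := hom_derivative P X₂ B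
    rw [hm, ← hDd] at h1
    rw [hm, hD2, mul_zero] at h2
    rw [hRd, ← h1, hUd, derivative_sub]
    linear_combination h2
  have hX1 : X₁.natDegree ≤ n := by rcases hdeg with h | h <;> omega
  have htop : B.natDegree < n → R.coeff ((m - 1) * n) ≠ 0 := by
    intro hb
    have hPm : 1 ≤ P.natDegree := by omega
    have hlc : P.leadingCoeff ≠ 0 := by
      rw [leadingCoeff_ne_zero]
      rintro rfl
      rw [natDegree_zero] at hm
      omega
    have ha1 : X₁.coeff n ≠ 0 := by
      have h3 : X₁.natDegree = n := by rcases hdeg with h | h <;> omega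
      have h4 : X₁ ≠ 0 := by
        rintro rfl
        rw [natDegree_zero] at h3
        omega
      rw [← h3]
      exact leadingCoeff_ne_zero.2 h4
    have h4 := hom'_top (P := P) hPm hb hX1
    rw [hm] at h4
    rw [hRd, h4]
    exact mul_ne_zero (mul_ne_zero hlc hmk) (pow_ne_zero _ ha1)
  have hR0 : R ≠ 0 := by
    intro h
    rcases hdeg with ⟨h1, -⟩ | ⟨h1, -⟩
    · obtain ⟨π, h2, h3⟩ := exists_prime hB (by omega)
      refine not_dvd_hom' (P := P) h2 h3 (not_dvd_of_cop c₁ h2 h3) (by rwa [hm]) ?_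
      rw [← hRd, h]
      exact dvd_zero _
    · have h2 := htop h1
      rw [h, coeff_zero] at h2
      exact h2 rfl
  have hU0 : U ≠ 0 := by
    intro h
    rw [h, derivative_zero, zero_mul, mul_zero, zero_mul, sub_zero] at hRD
    exact mul_ne_zero hR0 hD0 hRD
  have hkey : B ^ 2 ∣ D := by
    refine key_dvd hB hU0 hD0 ⟨W, by rw [← hrel, mul_comm]⟩ ?_
      (fun a j ha h => num0' hq hm3 ha h)
    intro π hπ a ha hπa j hj
    have hπB : π ∣ B := (dvd_pow_self π (by omega)).trans hπa
    have hR : ¬ π ∣ R := not_dvd_hom' (P := P) hπ hπB (not_dvd_of_cop c₁ hπ hπB) (by rwa [hm])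
    have h1 : π ^ (j + a - 1) ∣ R * D := by
      rw [hRD]
      exact dvd_wr m ha hπa j hj
    exact hπ.pow_dvd_of_dvd_mul_left _ hR h1
  have hdk := natDegree_le_of_dvd hkey hD0
  rw [natDegree_pow] at hdk
  have hdD := natDegree_wr (X := X₁) (B := B) hn hX1
  rw [← hDd] at hdD
  refine num' (by omega : 1 ≤ q) hm3 hn hdk (u := U.natDegree) ?_
  rcases hdeg with ⟨h1, -⟩ | ⟨h1, -⟩
  · left
    exact ⟨h1, by omega⟩
  · right
    refine ⟨h1, ?_, natDegree_U hU0 hW hrel⟩
    have h3 := le_natDegree_of_ne_zero (htop h1)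
    have h5 := congrArg natDegree hRD
    rw [natDegree_mul hR0 hD0] at h5
    have h6 := natDegree_wr' (B := B) U m
    omega

end cases

theorem main_poly2 (p : ℕ) [hpp : Fact p.Prime] [CharP k p] [IsAlgClosed k] (hp2 : p ≠ 2)
    (P : k[X]) (hm : P.natDegree = 2) (e : ℕ) (he : 1 ≤ e) (n : ℕ) :
    ∀ (B C : k[X]) (S : Set k[X]) (nx : k[X] → k[X]), 1 ≤ n → B ≠ 0 → (∀ A ∈ S, IsCoprime A B) →
      (∀ A ∈ S, nx A ∈ S) →
      (∀ A ∈ S, nx A * B ^ (p ^ e * 2 - 1) = hom P A B ^ (p ^ e) + C) →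
      ((B.natDegree = n ∧ ∀ A ∈ S, A.natDegree ≤ n) ∨
        (B.natDegree < n ∧ ∀ A ∈ S, A.natDegree = n)) →
      ∀ A : Fin 5 → k[X], (∀ i, A i ∈ S) → ∃ i j, i ≠ j ∧ nx (A i) = nx (A j) := by
  induction n using Nat.strong_induction_on with
  | _ n ih =>
  intro B C S nx hn hB hcop hmaps hrel hdeg A hAS
  have hp3 : 3 ≤ p := by
    have := hpp.out.two_le
    omega
  have hq3 : 3 ≤ p ^ e := hp3.trans (Nat.le_self_pow (by omega) p)
  have hq : 2 ≤ p ^ e := by omega
  obtain ⟨d, hdd⟩ : ∃ d, p ^ e * 2 = d + 2 := ⟨p ^ e * 2 - 2, by omega⟩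
  have hq0 : ((p ^ e : ℕ) : k) = 0 := by
    rw [Nat.cast_pow, CharP.cast_eq_zero, zero_pow (by omega)]
  have h2k : (2 : k) ≠ 0 := by
    have h1 : ((2 : ℕ) : k) ≠ 0 := by
      rw [Ne, CharP.cast_eq_zero_iff k p]
      intro h2
      exact hp2 ((Nat.prime_dvd_prime_iff_eq hpp.out Nat.prime_two).1 h2)
    exact_mod_cast h1
  have hmk : ((2 : ℕ) : k) ≠ 0 := by exact_mod_cast h2k
  have hd0 : ((d + 2 : ℕ) : k) = 0 := by
    rw [← hdd, Nat.cast_mul, hq0, zero_mul]
  have hsub : ∀ A ∈ S, ∀ A' ∈ S, (nx A - nx A') * B ^ (p ^ e * 2 - 1) =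
      (hom P A B - hom P A' B) ^ (p ^ e) := by
    intro A hA A' hA'
    rw [sub_mul, hrel A hA, hrel A' hA', sub_pow_char_pow]
    ring
  have hder : ∀ A ∈ S, (derivative (nx A) * B - nx A * derivative B) * B ^ d = derivative C := by
    intro A hA
    have h1 := congrArg derivative (hrel A hA)
    rw [derivative_add, derivative_pow, hq0, map_zero, zero_mul, zero_mul, zero_add, hdd,
      derivative_mul, derivative_pow] at h1
    have h2 : d + 2 - 1 = d + 1 := by omega
    have h3 : Polynomial.C ((d + 1 : ℕ) : k) = -1 := by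
      have h4 : ((d + 1 : ℕ) : k) = -1 := by
        have h5 : ((d + 2 : ℕ) : k) = ((d + 1 : ℕ) : k) + 1 := by push_cast; ring
        rw [h5] at hd0
        exact eq_neg_of_add_eq_zero_left hd0
      rw [h4, map_neg, map_one]
    rw [h2, h3, Nat.add_sub_cancel] at h1
    rw [← h1, pow_succ]
    ring
  have hwd : ∀ A ∈ S, A.natDegree ≤ n := by
    intro A hA
    rcases hdeg with ⟨h1, h2⟩ | ⟨h1, h2⟩
    · exact h2 A hA
    · exact (h2 A hA).le
  by_cases hC : derivative C = 0
  · -- all derivatives vanish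
    have hD1 : ∀ A ∈ S, derivative (nx A) * B - nx A * derivative B = 0 := by
      intro A hA
      have h1 := hder A hA
      rw [hC] at h1
      exact (mul_eq_zero.1 h1).resolve_right (pow_ne_zero _ hB)
    have hD2 : ∀ A ∈ S, derivative A * B - A * derivative B = 0 := by
      intro A hA
      refine caseTwo' (P := P) (X₂ := nx A) (W := nx A - nx (nx A)) (n := n) (q := p ^ e) hm le_rfl
        hmk hq hB (hcop A hA) hn ?_ ?_ (hsub A hA _ (hmaps A hA)) (hD1 A hA)
      · rcases hdeg with ⟨h1, h2⟩ | ⟨h1, h2⟩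
        · exact Or.inl ⟨h1, h2 A hA⟩
        · exact Or.inr ⟨h1, h2 A hA⟩
      · exact (natDegree_sub_le _ _).trans
          (max_le (hwd _ (hmaps A hA)) (hwd _ (hmaps _ (hmaps A hA))))
    have hA0 : ∀ A ∈ S, derivative A = 0 := fun A hA =>
      (derivs_zero hB (hcop A hA) (hD2 A hA)).1
    have hB0 : derivative B = 0 := (derivs_zero hB (hcop (A 0) (hAS 0)) (hD2 (A 0) (hAS 0))).2
    have hp0 : p ≠ 0 := by omega
    have ex : ∀ A : k[X], derivative A = 0 → expand k p (contract p A) = A := fun A hA =>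
      expand_contract p hA hp0
    have hinj : Function.Injective (expand k p) := expand_injective (by omega)
    obtain ⟨n₁, hn₁⟩ : ∃ n₁, n = n₁ * p := by
      rcases hdeg with ⟨h1, -⟩ | ⟨-, h2⟩
      · refine ⟨(contract p B).natDegree, ?_⟩
        rw [← natDegree_expand, ex B hB0, h1]
      · refine ⟨(contract p (A 0)).natDegree, ?_⟩
        rw [← natDegree_expand, ex (A 0) (hA0 (A 0) (hAS 0)), h2 (A 0) (hAS 0)]
    have hn1 : 1 ≤ n₁ := by
      rw [Nat.one_le_iff_ne_zero]
      rintro rfl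
      omega
    have hlt : n₁ < n := by nlinarith
    have hnx : ∀ A, expand k p A ∈ S →
        expand k p (contract p (nx (expand k p A))) = nx (expand k p A) := fun A hA =>
      ex _ (hA0 _ (hmaps _ hA))
    have key := ih n₁ hlt (contract p B) (contract p C) {A | expand k p A ∈ S}
      (fun A => contract p (nx (expand k p A))) hn1 ?_ ?_ ?_ ?_ ?_ (fun i => contract p (A i)) ?_
    · obtain ⟨i, j, hij, key⟩ := key
      refine ⟨i, j, hij, ?_⟩
      have h1 := congrArg (expand k p) key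
      beta_reduce at h1
      rw [ex (A i) (hA0 (A i) (hAS i)), ex (A j) (hA0 (A j) (hAS j)), ex _ (hA0 _ (hmaps _ (hAS i))),
        ex _ (hA0 _ (hmaps _ (hAS j)))] at h1
      exact h1
    · intro h
      apply hB
      rw [← ex B hB0, h, map_zero]
    · intro A hA
      refine coprime_of_expand (p := p) (by omega) ?_ ?_
      · intro h
        apply hB
        rw [← ex B hB0, h, map_zero]
      · rw [ex B hB0]
        exact hcop _ hA
    · intro A hA
      show expand k p (contract p (nx (expand k p A))) ∈ S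
      rw [hnx A hA]
      exact hmaps _ hA
    · intro A hA
      apply hinj
      rw [map_mul, map_add, map_pow, map_pow, ex B hB0, ex C hC, ← hom_expand, ex B hB0,
        hnx A hA]
      exact hrel _ hA
    · rcases hdeg with ⟨h1, h2⟩ | ⟨h1, h2⟩
      · left
        constructor
        · have h3 : (contract p B).natDegree * p = n₁ * p := by
            rw [← natDegree_expand, ex B hB0, h1, hn₁]
          exact Nat.eq_of_mul_eq_mul_right (by omega) h3
        · intro A hA
          have h3 := h2 _ hA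
          rw [natDegree_expand, hn₁] at h3
          exact Nat.le_of_mul_le_mul_right h3 (by omega)
      · right
        constructor
        · have h3 : (contract p B).natDegree * p < n₁ * p := by
            rw [← natDegree_expand, ex B hB0, ← hn₁]
            exact h1
          exact Nat.lt_of_mul_lt_mul_right h3
        · intro A hA
          have h3 := h2 _ hA
          rw [natDegree_expand, hn₁] at h3
          exact Nat.eq_of_mul_eq_mul_right (by omega) h3
    · intro i
      show expand k p (contract p (A i)) ∈ S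
      rw [ex (A i) (hA0 (A i) (hAS i))]
      exact hAS i
  · by_contra hcon
    push Not at hcon
    have hS : ∀ i, nx (A i) ∈ S := fun i => hmaps _ (hAS i)
    have he0 := hder (A 0) (hAS 0)
    refine five (P := P) (B := B) (n := n) (q := p ^ e) hm h2k hq3 hB hn (fun i => nx (A i)) ?_
      (fun i => hcop _ (hS i)) ?_ ?_ ?_ ?_ ?_
    · intro i j hij
      by_contra h
      exact hcon i j h hij
    · rcases hdeg with ⟨h1, h2⟩ | ⟨h1, h2⟩
      · exact Or.inl ⟨h1, fun i => h2 _ (hS i)⟩
      · exact Or.inr ⟨h1, fun i => h2 _ (hS i)⟩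
    · intro i j
      refine ⟨nx (nx (A i)) - nx (nx (A j)), ?_, hsub _ (hS i) _ (hS j)⟩
      exact (natDegree_sub_le _ _).trans
          (max_le (hwd _ (hmaps _ (hS i))) (hwd _ (hmaps _ (hS j))))
    · intro i j
      exact ⟨_, hsub _ (hAS i) _ (hAS j)⟩
    · intro i
      exact mul_right_cancel₀ (pow_ne_zero d hB) ((hder (A i) (hAS i)).trans he0.symm)
    · intro h
      beta_reduce at h
      rw [h, zero_mul] at he0
      exact hC he0.symm

end Pool.Agent.U689.UB
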