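import Pool.Agent.U689.UB.RF
import Pool.Agent.U689.UB.Two

/-!
# The common setup for preperiodic points in the field of rational functions
-/

set_option autoImplicit false

namespace Pool.Agent.U689.UB

open Polynomial Finset IsDedekindDomain

variable {k : Type*} [Field k]

theorem setup (p : ℕ) [hpp : Fact p.Prime] [CharP k p] (P : k[X]) (e : ℕ)
    (hd3 : 3 ≤ p ^ e * P.natDegree) (c : RatFunc k)
    (hc : ∀ a : k, c ≠ algebraMap k (RatFunc k) a) {x : RatFunc k}
    (hx : Pre (fun z : RatFunc k => aeval z P ^ (p ^ e) + c) x) :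
    ∃ (B C : k[X]) (S : Set k[X]) (nx : k[X] → k[X]) (n : ℕ), 1 ≤ n ∧ B ≠ 0 ∧
      (∀ A ∈ S, IsCoprime A B) ∧ (∀ A ∈ S, nx A ∈ S) ∧
      (∀ A ∈ S, nx A * B ^ (p ^ e * P.natDegree - 1) = hom P A B ^ (p ^ e) + C) ∧
      ((B.natDegree = n ∧ ∀ A ∈ S, A.natDegree ≤ n) ∨
        (B.natDegree < n ∧ ∀ A ∈ S, A.natDegree = n)) ∧
      ∀ z, Pre (fun z : RatFunc k => aeval z P ^ (p ^ e) + c) z → ∃ A ∈ S,
        algebraMap k[X] (RatFunc k) A / algebraMap k[X] (RatFunc k) B = z ∧
        algebraMap k[X] (RatFunc k) (nx A) / algebraMap k[X] (RatFunc k) B =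
          aeval z P ^ (p ^ e) + c := by
  classical
  set f : RatFunc k → RatFunc k := fun z => aeval z P ^ (p ^ e) + c with hf
  set m := P.natDegree with hm
  have hq : 1 ≤ p ^ e := Nat.pos_of_ne_zero (pow_ne_zero _ hpp.out.ne_zero)
  have hd4 : 3 ≤ p ^ e * m := hd3
  have hd2 : 2 ≤ p ^ e * P.natDegree := le_trans (by norm_num) hd4
  have hd0 : p ^ e * m ≠ 0 := by omega
  let ι := algebraMap k[X] (RatFunc k)
  have hι : Function.Injective ι := RatFunc.algebraMap_injective k
  set B := x.denom with hB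
  set N := x.num with hN
  have hB0 : B ≠ 0 := RatFunc.denom_ne_zero x
  have hιB : ι B ≠ 0 := by
    intro h
    exact hB0 (hι (by rw [h, map_zero]))
  have hcopN : IsCoprime N B := RatFunc.isCoprime_num_denom x
  have hxB : x * ι B = ι N := by
    have h1 : ι N / ι B = x := RatFunc.num_div_denom x
    rw [← h1, div_mul_cancel₀ _ hιB]
  -- the valuations
  have gen : ∀ {Γ : Type} [LinearOrderedCommGroupWithZero Γ] (v : Valuation (RatFunc k) Γ),
      (∀ a : k, a ≠ 0 → v (algebraMap k (RatFunc k) a) = 1) → ∀ z, Pre f z →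
        (v c ≤ 1 → v z ≤ 1) ∧ (1 < v c → v z = v x ∧ v x ^ (p ^ e * m) = v c) := by
    intro Γ _ v hv z hz
    have h1 := pre_val v hv hd2 hz
    have h2 := pre_val v hv hd2 hx
    refine ⟨h1.1, fun h3 => ?_⟩
    have h4 := h1.2 h3
    have h5 := h2.2 h3
    refine ⟨?_, h5⟩
    exact (pow_left_inj₀ zero_le zero_le hd0).1 (h4.trans h5.symm)
  have vle : ∀ (w : HeightOneSpectrum k[X]) (A : k[X]), w.valuation (RatFunc k) (ι A) ≤ 1 :=
    fun w A => w.valuation_le_one A
  have vk : ∀ (w : HeightOneSpectrum k[X]) (a : k), a ≠ 0 →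
      w.valuation (RatFunc k) (algebraMap k (RatFunc k) a) = 1 := fun w a ha =>
    const_val _ (vle w) a ha
  have hint : ∀ z, Pre f z → ∃ A : k[X], ι A = z * ι B := by
    intro z hz
    have h := HeightOneSpectrum.mem_integers_of_valuation_le_one (R := k[X]) (K := RatFunc k)
      (z * ι B) ?_
    · obtain ⟨A, hA⟩ := h
      exact ⟨A, hA⟩
    · intro w
      obtain ⟨h1, h2⟩ := gen (w.valuation (RatFunc k)) (vk w) z hz
      rcases le_or_gt (w.valuation (RatFunc k) c) 1 with h3 | h3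
      · rw [map_mul]
        exact mul_le_one' (h1 h3) (vle w B)
      · rw [map_mul, (h2 h3).1, ← map_mul, hxB]
        exact vle w N
  obtain ⟨C, hC⟩ : ∃ C : k[X], ι C = c * ι B ^ (p ^ e * m) := by
    have h := HeightOneSpectrum.mem_integers_of_valuation_le_one (R := k[X]) (K := RatFunc k)
      (c * ι B ^ (p ^ e * m)) ?_
    · obtain ⟨A, hA⟩ := h
      exact ⟨A, hA⟩
    · intro w
      obtain ⟨h1, h2⟩ := gen (w.valuation (RatFunc k)) (vk w) x hx
      rcases le_or_gt (w.valuation (RatFunc k) c) 1 with h3 | h3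
      · rw [map_mul, map_pow]
        exact mul_le_one' h3 (pow_le_one' (vle w B) _)
      · rw [map_mul, map_pow, ← (h2 h3).2, ← mul_pow, ← map_mul, hxB]
        exact pow_le_one' (vle w N) _
  let S : Set k[X] := {A | Pre f (ι A / ι B)}
  let nx : k[X] → k[X] := fun A =>
    if h : ∃ A', ι A' = f (ι A / ι B) * ι B then h.choose else 0
  have hnx : ∀ A ∈ S, ι (nx A) = f (ι A / ι B) * ι B := by
    intro A hA
    have h1 := hint _ (Pre.next hA)
    have h2 : nx A = h1.choose := dif_pos h1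
    rw [h2]
    exact h1.choose_spec
  have hmaps : ∀ A ∈ S, nx A ∈ S := by
    intro A hA
    show Pre f (ι (nx A) / ι B)
    rw [hnx A hA, mul_div_cancel_right₀ _ hιB]
    exact Pre.next hA
  have hrel : ∀ A ∈ S, nx A * B ^ (p ^ e * m - 1) = hom P A B ^ (p ^ e) + C := by
    intro A hA
    apply hι
    have h1 : ι B * ι B ^ (p ^ e * m - 1) = ι B ^ (p ^ e * m) := by
      rw [← pow_succ']
      congr 1
      omega
    rw [map_mul, map_pow, map_add, map_pow, hnx A hA, mul_assoc, h1, hC, hom_eval P A B hιB,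
      mul_pow, ← pow_mul, mul_comm P.natDegree, ← add_mul]
  have hSA : ∀ A ∈ S, ι A = (ι A / ι B) * ι B := fun A _ => (div_mul_cancel₀ _ hιB).symm
  have hcop : ∀ A ∈ S, IsCoprime A B := by
    intro A hA
    refine isCoprime_of_irreducible_dvd (fun h => hB0 h.2) ?_
    intro π hπ h1 h2
    let w : HeightOneSpectrum k[X] := ⟨Ideal.span {π},
      (Ideal.span_singleton_prime hπ.ne_zero).2 hπ.prime, by
        rw [Ne, Ideal.span_singleton_eq_bot]
        exact hπ.ne_zero⟩
    have hw : ∀ D : k[X], w.valuation (RatFunc k) (ι D) < 1 ↔ π ∣ D := by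
      intro D
      rw [← Ideal.mem_span_singleton]
      exact w.valuation_lt_one_iff_mem D
    obtain ⟨h3, h4⟩ := gen (w.valuation (RatFunc k)) (vk w) _ hA
    obtain ⟨h5, -⟩ := gen (w.valuation (RatFunc k)) (vk w) x hx
    have hNv : ¬ w.valuation (RatFunc k) (ι N) < 1 := by
      rw [hw]
      intro h6
      exact hπ.not_isUnit (hcopN.isUnit_of_dvd' h6 h2)
    rcases le_or_gt (w.valuation (RatFunc k) c) 1 with h6 | h6
    · apply hNv
      rw [← hxB, map_mul]
      exact (mul_le_of_le_one_left' (h5 h6)).trans_lt ((hw B).2 h2)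
    · apply hNv
      rw [← hxB, map_mul, ← (h4 h6).1, ← map_mul, ← hSA A hA]
      exact (hw A).2 h1
  -- the place at infinity
  let v := RatFunc.inftyValuation k
  have hvp : ∀ A : k[X], A ≠ 0 → v (ι A) = WithZero.exp (A.natDegree : ℤ) := fun A hA =>
    RatFunc.inftyValuation.polynomial k hA
  have hvk : ∀ a : k, a ≠ 0 → v (algebraMap k (RatFunc k) a) = 1 := by
    intro a ha
    exact RatFunc.inftyValuation.C k ha
  have hle : ∀ A D : k[X], D ≠ 0 → v (ι A) ≤ v (ι D) → A.natDegree ≤ D.natDegree := by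
    intro A D hD h
    by_cases hA : A = 0
    · rw [hA, natDegree_zero]
      exact Nat.zero_le _
    · rw [hvp A hA, hvp D hD, WithZero.exp_le_exp] at h
      exact_mod_cast h
  have hlt : ∀ A D : k[X], D ≠ 0 → v (ι A) < v (ι D) → A ≠ 0 → A.natDegree < D.natDegree := by
    intro A D hD h hA
    rw [hvp A hA, hvp D hD, WithZero.exp_lt_exp] at h
    exact_mod_cast h
  have hdegs : ∃ n, 1 ≤ n ∧ ((B.natDegree = n ∧ ∀ A ∈ S, A.natDegree ≤ n) ∨
      (B.natDegree < n ∧ ∀ A ∈ S, A.natDegree = n)) := by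
    rcases le_or_gt (v c) 1 with h | h
    · refine ⟨B.natDegree, ?_, Or.inl ⟨rfl, fun A hA => ?_⟩⟩
      · rw [Nat.one_le_iff_ne_zero]
        intro h0
        obtain ⟨b, hb⟩ := natDegree_eq_zero.1 h0
        have hb0 : b ≠ 0 := by
          rintro rfl
          rw [map_zero] at hb
          exact hB0 hb.symm
        have h1 : v (ι C) ≤ v (ι (1 : k[X])) := by
          rw [hC, map_mul, map_pow, hvp B hB0, h0, map_one, map_one]
          simpa using h
        have h2 := hle C 1 one_ne_zero h1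
        rw [natDegree_one] at h2
        obtain ⟨a, ha⟩ := natDegree_eq_zero.1 (Nat.le_zero.1 h2)
        refine hc (a / b ^ (p ^ e * m)) ?_
        have hιC : ∀ t : k, ι (Polynomial.C t) = algebraMap k (RatFunc k) t := by
          intro t
          rw [IsScalarTower.algebraMap_apply k k[X] (RatFunc k)]
          rfl
        rw [map_div₀, map_pow, ← hιC, ← hιC, ha, hb, hC, mul_div_cancel_right₀ _ (pow_ne_zero _ hιB)]
      · refine hle A B hB0 ?_
        rw [hSA A hA, map_mul]
        exact mul_le_of_le_one_left' ((gen v hvk _ hA).1 h)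
    · have hx1 : 1 < v x := by
        have h1 := ((gen v hvk x hx).2 h).2
        by_contra hcon
        rw [not_lt] at hcon
        rw [← h1] at h
        exact absurd (pow_le_one' hcon _) (not_le.2 h)
      have hvx0 : v x ≠ 0 := (zero_lt_one.trans hx1).ne'
      have hN0 : N ≠ 0 := by
        intro h0
        rw [h0, map_zero] at hxB
        rcases mul_eq_zero.1 hxB with h1 | h1
        · rw [h1, map_zero] at hvx0
          exact hvx0 rfl
        · exact hιB h1
      have hBN : B.natDegree < N.natDegree := by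
        refine hlt B N hN0 ?_ hB0
        rw [← hxB, map_mul]
        have h1 : v (ι B) ≠ 0 := (Valuation.ne_zero_iff v).2 hιB
        calc v (ι B) = 1 * v (ι B) := (one_mul _).symm
          _ < v x * v (ι B) := mul_lt_mul_of_pos_right hx1 (zero_lt_iff.2 h1)
      refine ⟨N.natDegree, by omega, Or.inr ⟨hBN, fun A hA => ?_⟩⟩
      have h1 : v (ι A) = v (ι N) := by
        rw [hSA A hA, map_mul, ((gen v hvk _ hA).2 h).1, ← map_mul, hxB]
      have hA0 : A ≠ 0 := by
        rintro rfl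
        rw [map_zero, map_zero] at h1
        have h2 : ι N ≠ 0 := by
          intro h3
          exact hN0 (hι (by rw [h3, map_zero]))
        exact h2 ((Valuation.zero_iff v).1 h1.symm)
      exact le_antisymm (hle A N hN0 h1.le) (hle N A hA0 h1.ge)
  obtain ⟨n, hn1, hdeg⟩ := hdegs
  refine ⟨B, C, S, nx, n, hn1, hB0, hcop, hmaps, hrel, hdeg, fun z hz => ?_⟩
  obtain ⟨A, hA⟩ := hint z hz
  have hAz : ι A / ι B = z := by
    rw [hA, mul_div_cancel_right₀ _ hιB]
  have hAS : A ∈ S := by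
    show Pre f (ι A / ι B)
    rw [hAz]
    exact hz
  refine ⟨A, hAS, hAz, ?_⟩
  show ι (nx A) / ι B = f z
  rw [hnx A hAS, hAz, mul_div_cancel_right₀ _ hιB]

theorem main_rat2 (p : ℕ) [hpp : Fact p.Prime] [CharP k p] [IsAlgClosed k] (hp2 : p ≠ 2)
    (P : k[X]) (hP : P.natDegree = 2) (e : ℕ) (he : 1 ≤ e) (c : RatFunc k)
    (hc : ∀ a : k, c ≠ algebraMap k (RatFunc k) a) (x : Fin 5 → RatFunc k)
    (hx : ∀ i, Pre (fun z : RatFunc k => aeval z P ^ (p ^ e) + c) (x i)) :
    ∃ i j, i ≠ j ∧ aeval (x i) P ^ (p ^ e) + c = aeval (x j) P ^ (p ^ e) + c := by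
  have hp3 : 3 ≤ p := by
    have := hpp.out.two_le
    omega
  have hq3 : 3 ≤ p ^ e := hp3.trans (Nat.le_self_pow (by omega) p)
  obtain ⟨B, C, S, nx, n, hn1, hB0, hcop, hmaps, hrel, hdeg, hS⟩ :=
    setup p P e (by rw [hP]; omega) c hc (hx 0)
  choose A hAS hA1 hA2 using fun i => hS (x i) (hx i)
  rw [hP] at hrel
  obtain ⟨i, j, hij, h⟩ := main_poly2 p hp2 P hP e he n B C S nx hn1 hB0 hcop hmaps hrel hdeg A hAS
  exact ⟨i, j, hij, by rw [← hA2 i, ← hA2 j, h]⟩

end Pool.Agent.U689.UB
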